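import Mathlib

/-! MP_7b5a71, package D: clockwise angles in `(0, 2 π]`.

`cwa w` is the clockwise angle from `1` to `w`.  Write nonzero numbers as `r exp(-i θ)` with `θ ∈ (0, 2 π]`, `θ = cwa`. -/

namespace P7b

open Complex

/-- the clockwise angle in `(0, 2 π]` from the positive real axis to `w` -/
noncomputable def cwa (w : ℂ) : ℝ := if Complex.arg w < 0 then - Complex.arg w else 2 * Real.pi - Complex.arg w

theorem cwa_pos (w : ℂ) : 0 < cwa w := by
  have h2 := Complex.arg_le_pi w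
  have h3 := Real.pi_pos
  unfold cwa
  split_ifs with h
  · linarith
  · linarith

theorem cwa_le (w : ℂ) : cwa w ≤ 2 * Real.pi := by
  have h1 := Complex.neg_pi_lt_arg w
  have h3 := Real.pi_pos
  unfold cwa
  split_ifs with h
  · linarith
  · linarith

private theorem exp_neg_cwa (w : ℂ) : Complex.exp (-(cwa w : ℂ) * I) = Complex.exp (Complex.arg w * I) := by
  unfold cwa
  split_ifs with h
  · push_cast
    rw [neg_neg]
  · rw [Complex.exp_eq_exp_iff_exists_int]
    refine ⟨-1, ?_⟩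
    push_cast
    ring

/-- polar form -/
theorem eq_of_cwa {w : ℂ} (hw : w ≠ 0) : w = (‖w‖ : ℂ) * Complex.exp (-(cwa w : ℂ) * I) := by
  rw [exp_neg_cwa]
  exact (Complex.norm_mul_exp_arg_mul_I w).symm

theorem cwa_polar {r θ : ℝ} (hr : 0 < r) (h0 : 0 < θ) (h1 : θ ≤ 2 * Real.pi) :
    cwa ((r : ℂ) * Complex.exp (-(θ : ℂ) * I)) = θ := by
  have hpi := Real.pi_pos
  by_cases hθ : θ < Real.pi
  · have harg : Complex.arg ((r : ℂ) * Complex.exp (-(θ : ℂ) * I)) = -θ := by
      have e : Complex.exp (-(θ : ℂ) * I) = Complex.cos ((-θ : ℝ) : ℂ) + Complex.sin ((-θ : ℝ) : ℂ) * I := by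
        rw [← Complex.exp_mul_I]
        push_cast
        rfl
      rw [e]
      exact Complex.arg_mul_cos_add_sin_mul_I hr ⟨by linarith, by linarith⟩
    unfold cwa
    rw [harg, if_pos (by linarith), neg_neg]
  · have harg : Complex.arg ((r : ℂ) * Complex.exp (-(θ : ℂ) * I)) = 2 * Real.pi - θ := by
      have e : Complex.exp (-(θ : ℂ) * I) =
          Complex.cos ((2 * Real.pi - θ : ℝ) : ℂ) + Complex.sin ((2 * Real.pi - θ : ℝ) : ℂ) * I := by
        rw [← Complex.exp_mul_I, Complex.exp_eq_exp_iff_exists_int]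
        refine ⟨-1, ?_⟩
        push_cast
        ring
      rw [e]
      exact Complex.arg_mul_cos_add_sin_mul_I hr ⟨by linarith, by linarith⟩
    unfold cwa
    rw [harg, if_neg (by linarith)]
    ring

/-- equal angles: positive multiple -/
theorem cwa_inj {w w' : ℂ} (hw : w ≠ 0) (hw' : w' ≠ 0) (h : cwa w = cwa w') :
    ∃ c : ℝ, 0 < c ∧ w' = (c : ℂ) * w := by
  have h1 := eq_of_cwa hw
  have h2 := eq_of_cwa hw'
  have hn : 0 < ‖w‖ := norm_pos_iff.mpr hw
  have hn' : 0 < ‖w'‖ := norm_pos_iff.mpr hw'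
  refine ⟨‖w'‖ / ‖w‖, div_pos hn' hn, ?_⟩
  have hne : (‖w‖ : ℂ) ≠ 0 := by exact_mod_cast hn.ne'
  rw [← h] at h2
  have h3 : Complex.exp (-(cwa w : ℂ) * I) = w / (‖w‖ : ℂ) := by
    rw [eq_div_iff hne, mul_comm]
    exact h1.symm
  rw [h3] at h2
  rw [h2.trans rfl]
  push_cast
  have hnn : (‖((‖w'‖ : ℂ) * (w / (‖w‖ : ℂ)))‖ : ℂ) = (‖w'‖ : ℂ) := by rw [← h2]
  rw [hnn]
  field_simp

/-- positive multiples have the same angle -/
theorem cwa_mul_pos {w : ℂ} {c : ℝ} (hc : 0 < c) : cwa ((c : ℂ) * w) = cwa w := by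
  unfold cwa
  rw [Complex.arg_real_mul w hc]

private theorem cwa_eq_of_polar {w : ℂ} {r θ : ℝ} (hr : 0 < r) (h0 : 0 < θ) (h1 : θ ≤ 2 * Real.pi)
    (h : w = (r : ℂ) * Complex.exp (-(θ : ℂ) * I)) : cwa w = θ := by
  rw [h]
  exact cwa_polar hr h0 h1

/-- The first direction clockwise from `β` cannot also be the first one clockwise from a different direction `β'`:
if `γ` is (weakly) before `β'` clockwise from `β` and (weakly) before `β` clockwise from `β'` then `β'` is a positive multiple of `β`.  (If not, `cwa (β'/β) + cwa (β/β') = 2 π`; with `a = cwa (γ/β) ≤ cwa (β'/β)`, the clockwise angle from `β'`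
to `γ` is `a + cwa (β/β')` (or `2 π` if `a = cwa (β'/β)`), which is larger than `cwa (β/β')`.) -/
theorem cw_first {β β' γ : ℂ} (h1 : β ≠ 0) (h2 : β' ≠ 0) (h3 : γ ≠ 0)
    (h : cwa (γ / β) ≤ cwa (β' / β)) (h' : cwa (γ / β') ≤ cwa (β / β')) :
    ∃ c : ℝ, 0 < c ∧ β' = (c : ℂ) * β := by
  have hpi := Real.pi_pos
  have hb0 : β' / β ≠ 0 := div_ne_zero h2 h1
  have hg0 : γ / β ≠ 0 := div_ne_zero h3 h1
  by_cases hb : cwa (β' / β) = 2 * Real.pi
  · have hpol := eq_of_cwa hb0
    have he : Complex.exp (-(cwa (β' / β) : ℂ) * I) = 1 := by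
      rw [hb, Complex.exp_eq_one_iff]
      exact ⟨-1, by push_cast; ring⟩
    rw [he, mul_one] at hpol
    refine ⟨‖β' / β‖, norm_pos_iff.mpr hb0, ?_⟩
    rw [← hpol]
    field_simp
  · exfalso
    have hblt : cwa (β' / β) < 2 * Real.pi := lt_of_le_of_ne (cwa_le _) hb
    have hbpos := cwa_pos (β' / β)
    have hapos := cwa_pos (γ / β)
    have hnb : 0 < ‖β' / β‖ := norm_pos_iff.mpr hb0
    have hng : 0 < ‖γ / β‖ := norm_pos_iff.mpr hg0
    have hnbC : (‖β' / β‖ : ℂ) ≠ 0 := by exact_mod_cast hnb.ne'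
    have e1 : β / β' = ((‖β' / β‖⁻¹ : ℝ) : ℂ) * Complex.exp (-((2 * Real.pi - cwa (β' / β) : ℝ) : ℂ) * I) := by
      have hpol := eq_of_cwa hb0
      have : β / β' = (β' / β)⁻¹ := by rw [inv_div]
      rw [this]
      conv_lhs => rw [hpol]
      rw [mul_inv, ← Complex.exp_neg]
      push_cast
      congr 1
      rw [Complex.exp_eq_exp_iff_exists_int]
      exact ⟨1, by push_cast; ring⟩
    have c1 : cwa (β / β') = 2 * Real.pi - cwa (β' / β) :=
      cwa_eq_of_polar (inv_pos.mpr hnb) (by linarith) (by linarith) e1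
    have e2 : γ / β' = ((‖γ / β‖ * ‖β' / β‖⁻¹ : ℝ) : ℂ) *
        Complex.exp (-((cwa (γ / β) + (2 * Real.pi - cwa (β' / β)) : ℝ) : ℂ) * I) := by
      have hpol := eq_of_cwa hg0
      have : γ / β' = (γ / β) * (β / β') := by field_simp
      rw [this, e1]
      conv_lhs => rw [hpol]
      rw [mul_mul_mul_comm, ← Complex.exp_add]
      push_cast
      congr 1
      congr 1
      ring
    rcases lt_or_eq_of_le h with hlt | heq
    · have c2 : cwa (γ / β') = cwa (γ / β) + (2 * Real.pi - cwa (β' / β)) :=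
        cwa_eq_of_polar (mul_pos hng (inv_pos.mpr hnb)) (by linarith) (by linarith) e2
      rw [c2, c1] at h'
      linarith
    · have e3 : cwa (γ / β) + (2 * Real.pi - cwa (β' / β)) = 2 * Real.pi := by rw [heq]; ring
      rw [e3] at e2
      have c2 : cwa (γ / β') = 2 * Real.pi :=
        cwa_eq_of_polar (mul_pos hng (inv_pos.mpr hnb)) (by linarith) le_rfl e2
      rw [c2, c1] at h'
      linarith

/-- for small positive `ε` the point `τ - ε i` has a small clockwise angle -/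
theorem cwa_small {τ a : ℝ} (hτ : 0 < τ) (ha : 0 < a) :
    ∃ ε₀ > 0, ∀ ε : ℝ, 0 < ε → ε < ε₀ → cwa ((τ : ℂ) - (ε : ℂ) * I) < a := by
  have hc : ContinuousAt Complex.arg (τ : ℂ) := Complex.continuousAt_arg (by
    rw [Complex.mem_slitPlane_iff]
    left
    simpa using hτ)
  rw [Metric.continuousAt_iff] at hc
  obtain ⟨δ, hδ, hd⟩ := hc a ha
  refine ⟨δ, hδ, fun ε he hlt => ?_⟩
  have hdist : dist ((τ : ℂ) - (ε : ℂ) * I) (τ : ℂ) < δ := by
    rw [Complex.dist_eq]
    have : (τ : ℂ) - (ε : ℂ) * I - (τ : ℂ) = -((ε : ℂ) * I) := by ring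
    rw [this, norm_neg, norm_mul, Complex.norm_I, mul_one, Complex.norm_real, Real.norm_eq_abs,
      abs_of_pos he]
    exact hlt
  have h1 := hd hdist
  have h2 : Complex.arg (τ : ℂ) = 0 := Complex.arg_ofReal_of_nonneg hτ.le
  rw [h2, Real.dist_eq, sub_zero] at h1
  have h3 : Complex.arg ((τ : ℂ) - (ε : ℂ) * I) < 0 := by
    rw [Complex.arg_neg_iff]
    simpa using he
  unfold cwa
  rw [if_pos h3]
  rw [abs_of_neg h3] at h1
  exact h1

end P7b
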