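import Pool.Agent.Lib.P7d.Dart
import Pool.Agent.Lib.P7d.Ang

/-! MP_7b5a71, package D: the next dart on the boundary of the face on the left: at the head turn
to the first outgoing dart clockwise from the way back. -/

namespace P7b

variable {R : Finset Sg}

/-- the clockwise angle at the head of `d` from the way back to `e` -/
noncomputable def turnA (d e : Drt R) : ℝ := cwa ((e.hd - d.hd) / (d.og - d.hd))

/-- `e` is the first outgoing dart at the head of `d`, clockwise from the way back -/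
def IsNxt (d e : Drt R) : Prop := e.og = d.hd ∧ ∀ e' : Drt R, e'.og = d.hd → turnA d e ≤ turnA d e'

namespace NxtAux

theorem cwa_div {w w' : ℂ} (hw : w ≠ 0) (hw' : w' ≠ 0) (h : cwa w < cwa w') :
    cwa (w' / w) = cwa w' - cwa w := by
  have h1 : w' / w = ((‖w'‖ / ‖w‖ : ℝ) : ℂ) *
      Complex.exp (-((cwa w' - cwa w : ℝ) : ℂ) * Complex.I) := by
    conv_lhs => rw [eq_of_cwa hw, eq_of_cwa hw']
    have hn : (‖w‖ : ℂ) ≠ 0 := by
      rw [Ne, Complex.ofReal_eq_zero]
      exact norm_ne_zero_iff.2 hw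
    have he : Complex.exp (-(cwa w : ℂ) * Complex.I) ≠ 0 := Complex.exp_ne_zero _
    have h2 : (-((cwa w' - cwa w : ℝ) : ℂ) * Complex.I) =
        (-(cwa w' : ℂ) * Complex.I) - (-(cwa w : ℂ) * Complex.I) := by
      push_cast
      ring
    rw [h2, Complex.exp_sub]
    push_cast
    field_simp
  rw [h1]
  refine cwa_polar (div_pos (norm_pos_iff.2 hw') (norm_pos_iff.2 hw)) (by linarith) ?_
  have := cwa_le w'
  have := cwa_pos w
  linarith

theorem sub_ne {z w : ℂ} (h : z ≠ w) : w - z ≠ 0 := sub_ne_zero.2 h.symm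

/-- the angle between two outgoing darts -/
theorem turn_rv (h : LP R) (f e : Drt R) :
    turnA (f.rvL h) e = cwa ((e.hd - f.og) / (f.hd - f.og)) := by
  unfold turnA
  rw [Drt.hd_rvL, Drt.og_rvL]

theorem eq_of_angle (h : LP R) {f e e' : Drt R} (he : e.og = f.og) (he' : e'.og = f.og)
    (ha : cwa ((e.hd - f.og) / (f.hd - f.og)) = cwa ((e'.hd - f.og) / (f.hd - f.og))) :
    e = e' := by
  have h0 : f.hd - f.og ≠ 0 := sub_ne (f.og_ne_hdL h)
  have h1 : e.hd - f.og ≠ 0 := by rw [← he]; exact sub_ne (e.og_ne_hdL h)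
  have h2 : e'.hd - f.og ≠ 0 := by rw [← he']; exact sub_ne (e'.og_ne_hdL h)
  obtain ⟨c, hc, hcc⟩ := cwa_inj (div_ne_zero h1 h0) (div_ne_zero h2 h0) ha
  refine Drt.dir_unique h (he.trans he'.symm) hc ?_
  rw [he, he']
  have h3 : e'.hd - f.og = (e'.hd - f.og) / (f.hd - f.og) * (f.hd - f.og) :=
    (div_mul_cancel₀ _ h0).symm
  rw [h3, hcc, mul_assoc, div_mul_cancel₀ _ h0]

end NxtAux

open NxtAux

theorem exists_isNxt (h : LP R) (d : Drt R) : ∃ e, IsNxt d e := by
  haveI : Nonempty {e : Drt R // e.og = d.hd} := ⟨⟨d.rvL h, Drt.og_rvL h d⟩⟩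
  obtain ⟨e, he⟩ := Finite.exists_min (fun e : {e : Drt R // e.og = d.hd} => turnA d e.1)
  exact ⟨e.1, e.2, fun e' he' => he ⟨e', he'⟩⟩

theorem isNxt_uniq (h : LP R) {d e e' : Drt R} (he : IsNxt d e) (he' : IsNxt d e') : e = e' := by
  have ha : turnA d e = turnA d e' := le_antisymm (he.2 e' he'.1) (he'.2 e he.1)
  have h0 : (d.rvL h).og = d.hd := Drt.og_rvL h d
  refine eq_of_angle h (f := d.rvL h) (he.1.trans h0.symm) (he'.1.trans h0.symm) ?_
  rw [Drt.og_rvL, Drt.hd_rvL]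
  exact ha

theorem isNxt_inj (h : LP R) {d d' e : Drt R} (he : IsNxt d e) (he' : IsNxt d' e) : d = d' := by
  have hv : d'.hd = d.hd := he'.1.symm.trans he.1
  have h1 : d.og - d.hd ≠ 0 := sub_ne (d.og_ne_hdL h).symm
  have h2 : d'.og - d.hd ≠ 0 := by rw [← hv]; exact sub_ne (d'.og_ne_hdL h).symm
  have h3 : e.hd - d.hd ≠ 0 := by rw [← he.1]; exact sub_ne (e.og_ne_hdL h)
  have k1 : cwa ((e.hd - d.hd) / (d.og - d.hd)) ≤ cwa ((d'.og - d.hd) / (d.og - d.hd)) := by
    have := he.2 (d'.rvL h) ((Drt.og_rvL h d').trans hv)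
    unfold turnA at this
    rwa [Drt.hd_rvL] at this
  have k2 : cwa ((e.hd - d.hd) / (d'.og - d.hd)) ≤ cwa ((d.og - d.hd) / (d'.og - d.hd)) := by
    have := he'.2 (d.rvL h) ((Drt.og_rvL h d).trans hv.symm)
    unfold turnA at this
    rw [Drt.hd_rvL, hv] at this
    exact this
  obtain ⟨c, hc, hcc⟩ := cw_first h1 h2 h3 k1 k2
  have h4 : d.rvL h = d'.rvL h := by
    refine Drt.dir_unique h ?_ hc ?_
    · rw [Drt.og_rvL, Drt.og_rvL, hv]
    · rw [Drt.hd_rvL, Drt.hd_rvL, Drt.og_rvL, Drt.og_rvL, hv]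
      exact hcc
  rw [← Drt.rvL_rvL h d, h4, Drt.rvL_rvL]

/-- the next dart -/
noncomputable def nxtL (h : LP R) (d : Drt R) : Drt R := Classical.choose (exists_isNxt h d)

theorem nxtL_spec (h : LP R) (d : Drt R) : IsNxt d (nxtL h d) := Classical.choose_spec (exists_isNxt h d)

theorem nxtL_inj (h : LP R) : Function.Injective (nxtL h) :=
  fun d d' hdd => isNxt_inj h (nxtL_spec h d) (hdd ▸ nxtL_spec h d')

theorem nxtL_bij (h : LP R) : Function.Bijective (nxtL h) :=
  Finite.injective_iff_bijective.1 (nxtL_inj h)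

/-- rotation around a vertex reaches all outgoing darts: starting from `d` the darts `(nxtL ∘ rvL)^[i] d` are all the darts with origin `d.og`.
(Let `e` have origin `d.og` and suppose it is not reached.  Among the darts `f` of the orbit of `d` take one with the smallest `cwa ((e.hd - v) / (f.hd - v))`; its successor `f' = nxtL (rvL f)` is the first one clockwise from `f`, so it is
between `f` and `e` and strictly closer to `e`, unless `f' = e`.) -/
theorem rot_all (h : LP R) {d e : Drt R} (ho : e.og = d.og) :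
    ∃ i : ℕ, e = (fun f => nxtL h (f.rvL h))^[i] d := by
  by_contra hcon
  have hog : ∀ i : ℕ, ((fun f => nxtL h (f.rvL h))^[i] d).og = d.og := by
    intro i
    induction i with
    | zero => rfl
    | succ i ih =>
      rw [Function.iterate_succ_apply']
      rw [(nxtL_spec h _).1, Drt.hd_rvL]
      exact ih
  haveI : Nonempty {f : Drt R // ∃ i : ℕ, f = (fun f => nxtL h (f.rvL h))^[i] d} :=
    ⟨⟨d, 0, rfl⟩⟩
  obtain ⟨⟨f, i, hi⟩, hf⟩ := Finite.exists_min
    (fun f : {f : Drt R // ∃ i : ℕ, f = (fun f => nxtL h (f.rvL h))^[i] d} =>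
      cwa ((e.hd - d.og) / (f.1.hd - d.og)))
  have hfo : f.og = d.og := by rw [hi]; exact hog i
  have hs := nxtL_spec h (f.rvL h)
  have hmem : nxtL h (f.rvL h) = (fun f => nxtL h (f.rvL h))^[i + 1] d := by
    rw [Function.iterate_succ_apply', ← hi]
  have hfo' : (nxtL h (f.rvL h)).og = d.og := by rw [hmem]; exact hog (i + 1)
  have hle := hs.2 e (by rw [Drt.hd_rvL, hfo, ho])
  rw [turn_rv, turn_rv, hfo] at hle
  have hne : nxtL h (f.rvL h) ≠ e := fun hh => hcon ⟨i + 1, by rw [← hmem, hh]⟩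
  have hlt : cwa (((nxtL h (f.rvL h)).hd - d.og) / (f.hd - d.og)) <
      cwa ((e.hd - d.og) / (f.hd - d.og)) := by
    refine lt_of_le_of_ne hle fun hh => hne ?_
    refine eq_of_angle h (f := f) (by rw [hfo', hfo]) (by rw [ho, hfo]) ?_
    rw [hfo]
    exact hh
  have h0 : f.hd - d.og ≠ 0 := by rw [← hfo]; exact sub_ne (f.og_ne_hdL h)
  have h1 : (nxtL h (f.rvL h)).hd - d.og ≠ 0 := by
    rw [← hfo']; exact sub_ne (Drt.og_ne_hdL h _)
  have h2 : e.hd - d.og ≠ 0 := by rw [← ho]; exact sub_ne (e.og_ne_hdL h)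
  have h3 := cwa_div (div_ne_zero h1 h0) (div_ne_zero h2 h0) hlt
  have h4 : (e.hd - d.og) / (f.hd - d.og) / (((nxtL h (f.rvL h)).hd - d.og) / (f.hd - d.og)) =
      (e.hd - d.og) / ((nxtL h (f.rvL h)).hd - d.og) := by
    field_simp
  rw [h4] at h3
  have h5 := hf ⟨nxtL h (f.rvL h), i + 1, hmem⟩
  have h6 := cwa_pos (((nxtL h (f.rvL h)).hd - d.og) / (f.hd - d.og))
  simp only at h5
  linarith

end P7b
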