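import Pool.Agent.Lib.P7d.Loc
import Pool.Agent.Lib.P7d.Nxt

/-! MP_7b5a71, package D: connected components of the union of the segments.

`GC h d e`: `e` is reached from `d` by the moves `rvL`, `nxtL`.
* `GC` is symmetric (finite set, permutations: `rvL` is an involution, the inverse of `nxtL` is a power of `nxtL`).
* Darts with the same origin are related (`rot_all`); hence darts whose closed edges share a point are related: the common point is a vertex, an end of both edges, or the open edges meet and `edge_uniqL`.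
* For a class `C` of `GC` let `W C` be the union of the closed edges of its darts: finitely many closed sets, pairwise disjoint, their union is `un R` (every point of `un R` is in a closed edge: `exists_dartL`, `exists_og`).
  So `W C` is clopen in `un R`, and a connected subset of `un R` meeting `W C` is inside it. -/

namespace P7b

variable {R : Finset Sg}

/-- reachable by reversals and boundary steps -/
def GC (h : LP R) (d e : Drt R) : Prop :=
  Relation.ReflTransGen (fun a b => b = Drt.rvL h a ∨ b = nxtL h a) d e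

namespace CompAux

theorem gc_rv (h : LP R) (d : Drt R) : GC h d (d.rvL h) :=
  Relation.ReflTransGen.single (Or.inl rfl)

theorem gc_nxt (h : LP R) (d : Drt R) : GC h d (nxtL h d) :=
  Relation.ReflTransGen.single (Or.inr rfl)

theorem gc_trans (h : LP R) {d e f : Drt R} (h1 : GC h d e) (h2 : GC h e f) : GC h d f :=
  Relation.ReflTransGen.trans h1 h2

theorem gc_iter (h : LP R) (d : Drt R) (i : ℕ) : GC h d ((nxtL h)^[i] d) := by
  induction i with
  | zero => exact Relation.ReflTransGen.refl
  | succ i ih =>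
    rw [Function.iterate_succ_apply']
    exact gc_trans h ih (gc_nxt h _)

theorem gc_back (h : LP R) (d : Drt R) : GC h (nxtL h d) d := by
  obtain ⟨n, hn, hp⟩ := (nxtL_inj h).mem_periodicPts d
  obtain ⟨k, rfl⟩ : ∃ k, n = k + 1 := ⟨n - 1, by omega⟩
  have h1 : (nxtL h)^[k] (nxtL h d) = d := by
    rw [← Function.iterate_succ_apply]
    exact hp
  have h2 := gc_iter h (nxtL h d) k
  rwa [h1] at h2

end CompAux

open CompAux

theorem gc_symm (h : LP R) {d e : Drt R} (hde : GC h d e) : GC h e d := by
  induction hde with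
  | refl => exact Relation.ReflTransGen.refl
  | tail _ hbc ih =>
    rename_i b c _
    refine gc_trans h ?_ ih
    rcases hbc with hbc | hbc
    · rw [hbc]
      have h1 := gc_rv h (b.rvL h)
      rwa [Drt.rvL_rvL] at h1
    · rw [hbc]
      exact gc_back h b

theorem gc_of_og (h : LP R) {d e : Drt R} (ho : e.og = d.og) : GC h d e := by
  obtain ⟨i, rfl⟩ := rot_all h ho
  clear ho
  induction i with
  | zero => exact Relation.ReflTransGen.refl
  | succ i ih =>
    rw [Function.iterate_succ_apply']
    exact gc_trans h (gc_trans h ih (gc_rv h _)) (gc_nxt h _)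

namespace CompAux

/-- a point of a closed edge is in the open edge and not a vertex, or it is the origin of the dart or of its reverse -/
theorem seg_cases (h : LP R) {d : Drt R} {z : ℂ} (hd : z ∈ segment ℝ d.og d.hd) :
    (z ∈ openSegment ℝ d.og d.hd ∧ z ∉ Vx R) ∨
      (z ∈ Vx R ∧ ∃ d' : Drt R, d'.og = z ∧ GC h d d') := by
  by_cases h1 : d.og = z
  · exact Or.inr ⟨h1 ▸ d.og_vxL h, d, h1, Relation.ReflTransGen.refl⟩
  · by_cases h2 : d.hd = z
    · refine Or.inr ⟨?_, d.rvL h, h2, gc_rv h d⟩
      have h3 := (d.rvL h).og_vxL h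
      rw [Drt.og_rvL, h2] at h3
      exact h3
    · have h3 := mem_openSegment_of_ne_left_right h1 h2 hd
      exact Or.inl ⟨h3, fun hv => Set.disjoint_left.1 (d.disjL h) h3 hv⟩

end CompAux

theorem gc_of_mem (h : LP R) {d e : Drt R} {z : ℂ} (hd : z ∈ segment ℝ d.og d.hd)
    (he : z ∈ segment ℝ e.og e.hd) : GC h d e := by
  rcases seg_cases h hd with ⟨h1, h2⟩ | ⟨h1, d', h2, h3⟩
  · rcases seg_cases h he with ⟨h4, _⟩ | ⟨h4, _⟩
    · rcases edge_uniqL h h1 h4 with h5 | h5
      · rw [h5]
        exact Relation.ReflTransGen.refl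
      · rw [h5]
        exact gc_rv h d
    · exact absurd h4 h2
  · rcases seg_cases h he with ⟨_, h4⟩ | ⟨_, e', h4, h5⟩
    · exact absurd h1 h4
    · exact gc_trans h h3 (gc_trans h (gc_of_og h (h4.trans h2.symm)) (gc_symm h h5))

theorem exists_closed_edge (h : LP R) {z : ℂ} (hz : z ∈ un R) :
    ∃ d : Drt R, z ∈ segment ℝ d.og d.hd := by
  by_cases hv : z ∈ Vx R
  · obtain ⟨e, rfl⟩ := exists_og h hv
    exact ⟨e, left_mem_segment ℝ _ _⟩
  · obtain ⟨d, hd⟩ := exists_dartL h hz hv
    exact ⟨d, openSegment_subset_segment ℝ _ _ hd⟩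

/-- a connected subset of the union meets only one class -/
theorem gc_of_conn (h : LP R) {K : Set ℂ} (hK : IsPreconnected K) (hs : K ⊆ un R) {d e : Drt R}
    {z w : ℂ} (hz : z ∈ K) (hw : w ∈ K) (hd : z ∈ segment ℝ d.og d.hd)
    (he : w ∈ segment ℝ e.og e.hd) : GC h d e := by
  by_contra hne
  have hcl : ∀ S : Set (Drt R), IsClosed (⋃ f ∈ S, segment ℝ f.og f.hd) := by
    intro S
    refine (Set.toFinite S).isClosed_biUnion ?_
    intro f _
    rw [segment_eq_image]
    exact (isCompact_Icc.image (by fun_prop)).isClosed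
  have h1 := (isPreconnected_closed_iff.1 hK) (⋃ f ∈ {f | GC h d f}, segment ℝ f.og f.hd)
    (⋃ f ∈ {f | ¬ GC h d f}, segment ℝ f.og f.hd) (hcl _) (hcl _) ?_ ?_ ?_
  · obtain ⟨x, _, hx1, hx2⟩ := h1
    simp only [Set.mem_iUnion] at hx1 hx2
    obtain ⟨f, hf, hxf⟩ := hx1
    obtain ⟨g, hg, hxg⟩ := hx2
    exact hg (gc_trans h hf (gc_of_mem h hxf hxg))
  · intro x hx
    obtain ⟨f, hf⟩ := exists_closed_edge h (hs hx)
    by_cases hdf : GC h d f
    · left
      simp only [Set.mem_iUnion]
      exact ⟨f, hdf, hf⟩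
    · right
      simp only [Set.mem_iUnion]
      exact ⟨f, hdf, hf⟩
  · refine ⟨z, hz, ?_⟩
    simp only [Set.mem_iUnion]
    exact ⟨d, Relation.ReflTransGen.refl, hd⟩
  · refine ⟨w, hw, ?_⟩
    simp only [Set.mem_iUnion]
    exact ⟨e, hne, he⟩

end P7b
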