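import Pool.Agent.Lib.P7d.Vert

/-! MP_7b5a71, package D: darts of an `LP` family.  (Compare `P7b/GMap.lean`, `GMapA.lean`, `GLoc.lean`.)

`dir_unique`: two darts with the same origin and the same direction are equal: the segments `d.sg`, `e.sg` both contain the origin and a point slightly further in this direction, so they are equal by
`LP.sub`; the directions agree (`sub_eq`), so `ext'`. -/

namespace P7b

namespace Drt

variable {R : Finset Sg}

theorem hd_memL (h : LP R) (d : Drt R) : d.hd ∈ VF R d.sg := (h.sc_spec d.mem d.dr d.og_mem d.og_ne).1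

theorem hd_neL (h : LP R) (d : Drt R) : d.hd ≠ en d.sg (!d.dr) := h.sc_ne d.mem d.dr d.og_mem d.og_ne

/-- the reversed dart -/
noncomputable def rvL (h : LP R) (d : Drt R) : Drt R :=
  ⟨(d.sg, !d.dr, d.hd), d.mem, d.hd_memL h, d.hd_neL h⟩

theorem og_rvL (h : LP R) (d : Drt R) : (d.rvL h).og = d.hd := rfl

theorem hd_rvL (h : LP R) (d : Drt R) : (d.rvL h).hd = d.og :=
  h.sc_sc d.mem d.dr d.og_mem d.og_ne

theorem rvL_rvL (h : LP R) (d : Drt R) : (d.rvL h).rvL h = d :=
  ext' rfl (Bool.not_not d.dr) (hd_rvL h d)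

theorem rvL_ne (h : LP R) (d : Drt R) : d.rvL h ≠ d := by
  intro hh
  have h1 : (!d.dr) = d.dr := congrArg Drt.dr hh
  cases hd : d.dr <;> simp [hd] at h1

theorem disjL (h : LP R) (d : Drt R) : Disjoint (openSegment ℝ d.og d.hd) (Vx R) :=
  h.sc_disj d.mem d.dr d.og_mem d.og_ne

theorem og_carL (h : LP R) (d : Drt R) : d.og ∈ car d.sg := (h.mem_VF.1 d.og_mem).2

theorem hd_carL (h : LP R) (d : Drt R) : d.hd ∈ car d.sg := (h.mem_VF.1 (d.hd_memL h)).2

theorem og_vxL (h : LP R) (d : Drt R) : d.og ∈ Vx R := (h.mem_VF.1 d.og_mem).1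

private theorem tau_ltL (h : LP R) (d : Drt R) : tau d.sg d.dr d.og < tau d.sg d.dr d.hd :=
  (h.sc_spec d.mem d.dr d.og_mem d.og_ne).2.1

theorem og_ne_hdL (h : LP R) (d : Drt R) : d.og ≠ d.hd := by
  intro hh
  have h1 := tau_ltL h d
  rw [← hh] at h1
  exact lt_irrefl _ h1

theorem dir_unique (h : LP R) {d e : Drt R} (ho : d.og = e.og) {c : ℝ} (hc : 0 < c)
    (hd : e.hd - e.og = (c : ℂ) * (d.hd - d.og)) : d = e := by
  have hm : 0 < min 1 c := lt_min one_pos hc
  have hm1 : min 1 c ≤ 1 := min_le_left _ _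
  have hmc : min 1 c / c ≤ 1 := (div_le_one hc).2 (min_le_right _ _)
  have hcc : (c : ℂ) ≠ 0 := by exact_mod_cast hc.ne'
  have hne : d.hd - d.og ≠ 0 := sub_ne_zero.2 (og_ne_hdL h d).symm
  -- a common point
  have hseg : d.sg = e.sg := by
    by_contra hcon
    have hp : d.og + ((min 1 c : ℝ) : ℂ) * (d.hd - d.og) ∈ car d.sg := by
      refine segment_sub (og_carL h d) (hd_carL h d) ?_
      rw [segment_eq_image']
      exact ⟨min 1 c, ⟨hm.le, hm1⟩, by simp [Complex.real_smul]⟩
    have hp' : d.og + ((min 1 c : ℝ) : ℂ) * (d.hd - d.og) ∈ car e.sg := by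
      refine segment_sub (og_carL h e) (hd_carL h e) ?_
      rw [segment_eq_image']
      refine ⟨min 1 c / c, ⟨by positivity, hmc⟩, ?_⟩
      simp only [Complex.real_smul]
      rw [hd, ho]
      push_cast
      field_simp
    have hq : d.og ∈ car e.sg := by
      rw [ho]
      exact og_carL h e
    have h1 := h.sub _ d.mem _ e.mem hcon ⟨og_carL h d, hq⟩ ⟨hp, hp'⟩
    have h2 : ((min 1 c : ℝ) : ℂ) * (d.hd - d.og) = 0 := by
      have := sub_eq_zero.2 h1
      linear_combination -this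
    rcases mul_eq_zero.1 h2 with h3 | h3
    · exact hm.ne' (by exact_mod_cast h3)
    · exact hne h3
  have hs := h.ne _ d.mem
  have e1 := sub_eq hs d.dr (og_carL h d) (hd_carL h d)
  have e2 := sub_eq (h.ne _ e.mem) e.dr (og_carL h e) (hd_carL h e)
  have t1 := tau_ltL h d
  have t2 := tau_ltL h e
  refine ext' hseg ?_ ho
  by_contra hcon
  have hdr : e.dr = !d.dr := by
    cases h1 : d.dr <;> cases h2 : e.dr <;> simp_all
  have hdv : dv e.sg e.dr = - dv d.sg d.dr := by
    rw [← hseg, hdr, dv_not]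
  have hv : dv d.sg d.dr ≠ 0 := dv_ne hs d.dr
  rw [e1, e2, hdv] at hd
  have h5 : ((c * (tau d.sg d.dr d.hd - tau d.sg d.dr d.og) +
      (tau e.sg e.dr e.hd - tau e.sg e.dr e.og) : ℝ) : ℂ) * dv d.sg d.dr = 0 := by
    push_cast
    push_cast at hd
    linear_combination -hd
  rcases mul_eq_zero.1 h5 with h6 | h6
  · have h7 : c * (tau d.sg d.dr d.hd - tau d.sg d.dr d.og) +
      (tau e.sg e.dr e.hd - tau e.sg e.dr e.og) = 0 := by exact_mod_cast h6
    have h8 : 0 < c * (tau d.sg d.dr d.hd - tau d.sg d.dr d.og) := mul_pos hc (by linarith)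
    linarith
  · exact hv h6

/-- a dart is determined by its two ends -/
theorem pair_inj (h : LP R) {d e : Drt R} (ho : d.og = e.og) (hd : d.hd = e.hd) : d = e :=
  dir_unique h ho one_pos (by rw [← ho, ← hd]; simp)

end Drt

end P7b
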