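import Pool.Agent.Lib.P7d.OneOrb

/-! MP_7b5a71, package D: the frontier of a face and its connected components.

`frontier_face`: (⊇) `segment_sub_frontier`.  (⊆) `z ∈ frontier (face R x)`; `z ∈ un R` (`face R x` is a component of the open set `(un R)ᶜ`: open and closed in it).  If `z ∉ Vx R`: `exists_dartL`, `edge_ballL`.  If `z ∈ Vx R`: `exists_og` gives an outgoing dart; in a small ball around `z`
every point off `un R` is in one of the sectors `sector z (a.og - z) r (turnA a (nxtL a))`, `a` with `a.hd = z` (its clockwise angle from a fixed direction lies between two consecutive outgoing directions: take `a = rvL f` with `f` outgoing at `z` minimising the clockwise angle from `f` to the point);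
`face R x` has points in the ball, so `lreg a = face R x` for some `a` with `a.hd = z` (`sector_face`, `connectedComponentIn_eq`).
`orbit_component`: the union of the closed edges of the orbit of `d` is connected (consecutive edges share a point) and inside the frontier (`lreg_nxtL`); conversely a point of the component is on a closed edge of a dart `e` with `lreg e = face R x` (`frontier_face`), `GC h d e` by `gc_of_conn`
(`frontier ⊆ un R`), and `one_orbit`. -/

namespace P7b

variable {R : Finset Sg}

namespace FrontAux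

theorem un_closed (R : Finset Sg) : IsClosed (un R) := by
  unfold un
  exact R.finite_toSet.isClosed_biUnion fun t _ => isClosed_car t

theorem face_open (R : Finset Sg) (x : ℂ) : IsOpen (face R x) := by
  unfold face
  exact (un_closed R).isOpen_compl.connectedComponentIn

/-- a point of the region on the left determines it -/
theorem lreg_mem (h : LP R) (a : Drt R) {w : ℂ} (hw : w ∈ lreg R a.og a.hd) :
    connectedComponentIn (un R)ᶜ w = lreg R a.og a.hd := by
  obtain ⟨ε₁, e1, h2⟩ := lreg_eqL h a.mem (a.og_carL h) (a.hd_carL h) (a.og_ne_hdL h)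
    (a.disjL h) (t := 1 / 2) (by norm_num) (by norm_num)
  obtain ⟨h3, h4⟩ := h2 (ε₁ / 2) (half_pos e1) (by linarith)
  rw [← h4] at hw ⊢
  exact (connectedComponentIn_eq hw).symm

/-- a vertex in the frontier is the head of a dart with the face on its left -/
theorem vertex_case (h : LP R) {x z : ℂ} (hz : z ∈ closure (face R x)) (hv : z ∈ Vx R) :
    ∃ a : Drt R, a.hd = z ∧ lreg R a.og a.hd = face R x := by
  haveI : Nonempty {f : Drt R // f.og = z} := by
    obtain ⟨e, he⟩ := exists_og h hv
    exact ⟨⟨e, he⟩⟩
  -- every point near `z` is in the good range for all darts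
  have hev : ∀ᶠ w in nhds z, ∀ f : {f : Drt R // f.og = z},
      dist w z < ‖f.1.hd - z‖ ∧ ∃ r > 0,
        sector (f.1.rvL h).hd ((f.1.rvL h).og - (f.1.rvL h).hd) r
          (turnA (f.1.rvL h) (nxtL h (f.1.rvL h))) ⊆
            lreg R (f.1.rvL h).og (f.1.rvL h).hd ∧ dist w z < r * ‖f.1.hd - z‖ := by
    rw [Filter.eventually_all]
    rintro ⟨f, hf⟩
    obtain ⟨_, r, hr, hs⟩ := sector_face h (nxtL_spec h (f.rvL h))
    have hn : 0 < ‖f.hd - z‖ := by
      rw [← hf]
      exact norm_pos_iff.2 (sub_ne_zero.2 (f.og_ne_hdL h).symm)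
    have h1 : ∀ᶠ w in nhds z, dist w z < ‖f.hd - z‖ := Metric.ball_mem_nhds z hn
    have h2 : ∀ᶠ w in nhds z, dist w z < r * ‖f.hd - z‖ :=
      Metric.ball_mem_nhds z (mul_pos hr hn)
    filter_upwards [h1, h2] with w hw1 hw2
    exact ⟨hw1, r, hr, hs, hw2⟩
  obtain ⟨w, hwf, hw⟩ := ((mem_closure_iff_frequently.1 hz).and_eventually hev).exists
  have hwu : w ∉ un R := connectedComponentIn_subset _ _ hwf
  have hzu : z ∈ un R := by
    obtain ⟨e, he⟩ := exists_og h hv
    exact Set.mem_biUnion e.mem (he ▸ e.og_carL h)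
  have hwz : w ≠ z := fun hh => hwu (hh ▸ hzu)
  have hwz' : w - z ≠ 0 := sub_ne_zero.2 hwz
  obtain ⟨⟨f, hf⟩, hmin⟩ := Finite.exists_min
    (fun f : {f : Drt R // f.og = z} => cwa ((w - z) / (f.1.hd - z)))
  obtain ⟨_, r, hr, hs, hw2⟩ := hw ⟨f, hf⟩
  have hfh : f.hd - z ≠ 0 := by
    rw [← hf]
    exact sub_ne_zero.2 (f.og_ne_hdL h).symm
  have hn : 0 < ‖f.hd - z‖ := norm_pos_iff.2 hfh
  have hah : (f.rvL h).hd = z := by rw [Drt.hd_rvL, hf]
  have hao : (f.rvL h).og = f.hd := Drt.og_rvL h f
  have hN := nxtL_spec h (f.rvL h)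
  set e := nxtL h (f.rvL h) with he
  have heo : e.og = z := hN.1.trans hah
  have hee : e.hd - z ≠ 0 := by
    rw [← heo]
    exact sub_ne_zero.2 (e.og_ne_hdL h).symm
  have hturn : turnA (f.rvL h) e = cwa ((e.hd - z) / (f.hd - z)) := by
    unfold turnA
    rw [hah, hao]
  have hlt : cwa ((w - z) / (f.hd - z)) < turnA (f.rvL h) e := by
    rw [hturn]
    by_contra hcon
    push Not at hcon
    rcases lt_or_eq_of_le hcon with h1 | h1
    · have h2 := NxtAux.cwa_div (div_ne_zero hee hfh) (div_ne_zero hwz' hfh) h1
      have h3 : (w - z) / (f.hd - z) / ((e.hd - z) / (f.hd - z)) = (w - z) / (e.hd - z) := by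
        field_simp
      rw [h3] at h2
      have h4 := hmin ⟨e, heo⟩
      have h5 := cwa_pos ((e.hd - z) / (f.hd - z))
      simp only at h4
      linarith
    · obtain ⟨c, hc, hcc⟩ := cwa_inj (div_ne_zero hee hfh) (div_ne_zero hwz' hfh) h1
      have h2 : w - z = (c : ℂ) * (e.hd - z) := by
        have h3 : (w - z) = (w - z) / (f.hd - z) * (f.hd - z) := (div_mul_cancel₀ _ hfh).symm
        rw [h3, hcc, mul_assoc, div_mul_cancel₀ _ hfh]
      have hen : 0 < ‖e.hd - z‖ := norm_pos_iff.2 hee
      have hc1 : c < 1 := by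
        have h3 := (hw ⟨e, heo⟩).1
        rw [dist_eq_norm, h2, norm_mul, Complex.norm_real, Real.norm_of_nonneg hc.le] at h3
        simp only at h3
        by_contra hge
        push Not at hge
        nlinarith
      apply hwu
      have h4 := SectorAux.seg_un h e hc.le hc1.le
      rw [heo] at h4
      have h5 : w = z + (c : ℂ) * (e.hd - z) := by
        rw [← h2]
        ring
      rw [h5]
      exact h4
  have hmem : w ∈ lreg R (f.rvL h).og (f.rvL h).hd := by
    apply hs
    refine ⟨‖(w - z) / (f.hd - z)‖, cwa ((w - z) / (f.hd - z)),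
      norm_pos_iff.2 (div_ne_zero hwz' hfh), ?_, cwa_pos _, hlt, ?_⟩
    · rw [norm_div, div_lt_iff₀ hn, ← dist_eq_norm]
      exact hw2
    · rw [hah, hao, ← eq_of_cwa (div_ne_zero hwz' hfh), div_mul_cancel₀ _ hfh]
      ring
  refine ⟨f.rvL h, hah, ?_⟩
  rw [← lreg_mem h _ hmem]
  unfold face at hwf ⊢
  exact (connectedComponentIn_eq hwf).symm

end FrontAux

open FrontAux

theorem frontier_face_sub (R : Finset Sg) (x : ℂ) : frontier (face R x) ⊆ un R := by
  intro z hz
  by_contra hzu
  have hopen : IsOpen (connectedComponentIn (un R)ᶜ z) :=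
    (un_closed R).isOpen_compl.connectedComponentIn
  have hzm : z ∈ connectedComponentIn (un R)ᶜ z := mem_connectedComponentIn hzu
  obtain ⟨w, hw1, hw2⟩ := mem_closure_iff.1 hz.1 _ hopen hzm
  have h1 := connectedComponentIn_eq hw1
  have h2 : face R x = connectedComponentIn (un R)ᶜ w := connectedComponentIn_eq hw2
  have h3 : z ∈ face R x := by
    rw [h2, ← h1]
    exact hzm
  apply hz.2
  rw [(face_open R x).interior_eq]
  exact h3

theorem frontier_face (h : LP R) {x : ℂ} (hx : x ∉ un R) :
    frontier (face R x) = ⋃ d ∈ {d : Drt R | lreg R d.og d.hd = face R x}, segment ℝ d.og d.hd := by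
  apply Set.Subset.antisymm
  · intro z hz
    have hzu := frontier_face_sub R x hz
    rw [Set.mem_iUnion₂]
    by_cases hv : z ∈ Vx R
    · obtain ⟨a, ha1, ha2⟩ := vertex_case h hz.1 hv
      refine ⟨a, ha2, ?_⟩
      rw [← ha1]
      exact right_mem_segment ℝ _ _
    · obtain ⟨d, hd⟩ := exists_dartL h hzu hv
      obtain ⟨ε, he, hball⟩ := edge_ballL h d.mem (d.og_carL h) (d.hd_carL h) (d.og_ne_hdL h)
        (d.disjL h) hd
      obtain ⟨w, hw1, hw2⟩ := Metric.mem_closure_iff.1 hz.1 ε he
      have hwu : w ∉ un R := connectedComponentIn_subset _ _ hw1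
      have hwf : connectedComponentIn (un R)ᶜ w = face R x := (connectedComponentIn_eq hw1).symm
      rcases (hball w (by rw [dist_comm]; exact hw2)).2 hwu with h1 | h1
      · exact ⟨d, h1.symm.trans hwf, openSegment_subset_segment ℝ _ _ hd⟩
      · refine ⟨d.rvL h, ?_, ?_⟩
        · change lreg R (d.rvL h).og (d.rvL h).hd = face R x
          rw [Drt.og_rvL, Drt.hd_rvL]
          exact h1.symm.trans hwf
        · rw [Drt.og_rvL, Drt.hd_rvL, segment_symm]
          exact openSegment_subset_segment ℝ _ _ hd
  · intro z hz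
    rw [Set.mem_iUnion₂] at hz
    obtain ⟨d, hd, hzd⟩ := hz
    have h1 := segment_sub_frontier h d hzd
    have hd' : lreg R d.og d.hd = face R x := hd
    rwa [hd'] at h1

namespace FrontAux

theorem lreg_iter (h : LP R) (d : Drt R) (i : ℕ) :
    lreg R ((nxtL h)^[i] d).og ((nxtL h)^[i] d).hd = lreg R d.og d.hd := by
  induction i with
  | zero => rfl
  | succ i ih =>
    rw [Function.iterate_succ_apply', lreg_nxtL, ih]

theorem og_mem_frontier (h : LP R) {x : ℂ} {d : Drt R} (hd : lreg R d.og d.hd = face R x) :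
    d.og ∈ frontier (face R x) := by
  rw [← hd]
  exact segment_sub_frontier h d (left_mem_segment ℝ _ _)

end FrontAux

theorem orbit_component (h : LP R) {x : ℂ} (hx : x ∉ un R) {d : Drt R}
    (hd : lreg R d.og d.hd = face R x) :
    connectedComponentIn (frontier (face R x)) d.og
      = ⋃ i : ℕ, segment ℝ ((nxtL h)^[i] d).og ((nxtL h)^[i] d).hd := by
  apply Set.Subset.antisymm
  · intro z hz
    have hzf := connectedComponentIn_subset _ _ hz
    have hzf' := hzf
    rw [frontier_face h hx, Set.mem_iUnion₂] at hzf'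
    obtain ⟨e, he, hze⟩ := hzf'
    have he' : lreg R e.og e.hd = face R x := he
    have hgc : GC h d e := gc_of_conn h
      (isPreconnected_connectedComponentIn (F := frontier (face R x)) (x := d.og))
      ((connectedComponentIn_subset _ _).trans (frontier_face_sub R x))
      (mem_connectedComponentIn (og_mem_frontier h hd)) hz (left_mem_segment ℝ _ _) hze
    obtain ⟨i, hi⟩ := one_orbit h (hd.trans he'.symm) hgc
    rw [Set.mem_iUnion]
    refine ⟨i, ?_⟩
    rw [← hi]
    exact hze
  · have hpre : IsPreconnected (⋃ i : ℕ, segment ℝ ((nxtL h)^[i] d).og ((nxtL h)^[i] d).hd) := by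
      refine IsPreconnected.iUnion_of_chain (fun i => (convex_segment _ _).isPreconnected) ?_
      intro i
      refine ⟨((nxtL h)^[i] d).hd, right_mem_segment ℝ _ _, ?_⟩
      have h1 : ((nxtL h)^[Order.succ i] d).og = ((nxtL h)^[i] d).hd := by
        rw [Nat.succ_eq_succ, Function.iterate_succ_apply']
        exact (nxtL_spec h _).1
      rw [← h1]
      exact left_mem_segment ℝ _ _
    refine hpre.subset_connectedComponentIn ?_ ?_
    · rw [Set.mem_iUnion]
      exact ⟨0, left_mem_segment ℝ _ _⟩
    · refine Set.iUnion_subset fun i => ?_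
      have h2 := segment_sub_frontier h ((nxtL h)^[i] d)
      rwa [lreg_iter h d i, hd] at h2

/-- two sides of the face are in the same boundary component iff they are in the same orbit -/
theorem same_component_iff (h : LP R) {x : ℂ} (hx : x ∉ un R) {d e : Drt R}
    (hd : lreg R d.og d.hd = face R x) (he : lreg R e.og e.hd = face R x) :
    (∃ i : ℕ, e = (nxtL h)^[i] d) ↔
      e.og ∈ connectedComponentIn (frontier (face R x)) d.og := by
  constructor
  · rintro ⟨i, hi⟩
    rw [orbit_component h hx hd, Set.mem_iUnion]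
    refine ⟨i, ?_⟩
    rw [← hi]
    exact left_mem_segment ℝ _ _
  · intro hz
    have hgc : GC h d e := gc_of_conn h
      (isPreconnected_connectedComponentIn (F := frontier (face R x)) (x := d.og))
      ((connectedComponentIn_subset _ _).trans (frontier_face_sub R x))
      (mem_connectedComponentIn (og_mem_frontier h hd)) hz (left_mem_segment ℝ _ _)
      (left_mem_segment ℝ _ _)
    exact one_orbit h (hd.trans he.symm) hgc

end P7b
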