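import Pool.Agent.Lib.P7d.Left
import Pool.Agent.Lib.P7b.GJump

/-! MP_7b5a71, package D: planarity of the map of an `LP` family: copies of `wind_jump` (`P7b/GJump.lean`) and `gm_planar` (`P7b/GPlanar.lean`) for `LP` families (same proofs with `edge_uniqL`, `hd_rvL`, `lreg_eqL`). -/

namespace P7b

open Complex Filter Topology

variable {R : Finset Sg}

namespace JumpLAux

private theorem lq_cont (a b : ℂ) : Continuous (fun ε : ℝ => lq a b (1 / 2) ε) := by
  unfold lq
  fun_prop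

private theorem wind_cons (e : ℂ × ℂ) (l : List (ℂ × ℂ)) (z : ℂ) :
    wind (e :: l) z = Complex.arg ((e.2 - z) / (e.1 - z)) + wind l z := by
  simp [wind]

private theorem step_zero (h : LP R) {d e : Drt R} (h1 : e ≠ d) (h2 : e ≠ d.rvL h) :
    Tendsto (fun ε : ℝ =>
      Complex.arg ((e.hd - lq d.og d.hd (1 / 2) ε) / (e.og - lq d.og d.hd (1 / 2) ε))
      - Complex.arg ((e.hd - lq d.og d.hd (1 / 2) (-ε)) / (e.og - lq d.og d.hd (1 / 2) (-ε))))
      (𝓝[>] 0) (𝓝 0) := by
  have hz : lq d.og d.hd (1 / 2) 0 ∈ openSegment ℝ d.og d.hd :=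
    lq_zero_mem (by norm_num) (by norm_num)
  have hv : lq d.og d.hd (1 / 2) 0 ∉ Vx R := fun hx =>
    Set.disjoint_left.1 (d.disjL h) hz hx
  have hn : lq d.og d.hd (1 / 2) 0 ∉ segment ℝ e.og e.hd := by
    intro hs
    have a1 : e.og ≠ lq d.og d.hd (1 / 2) 0 := by
      intro hx
      rw [← hx] at hv
      exact hv (h.mem_VF.1 e.og_mem).1
    have a2 : e.hd ≠ lq d.og d.hd (1 / 2) 0 := by
      intro hx
      rw [← hx] at hv
      exact hv (h.mem_VF.1 (e.hd_memL h)).1
    have ho := mem_openSegment_of_ne_left_right a1 a2 hs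
    rcases edge_uniqL h hz ho with hx | hx
    · exact h1 hx
    · exact h2 hx
  have hc : ContinuousAt (wind [(e.og, e.hd)]) (lq d.og d.hd (1 / 2) 0) := by
    apply wind_cont
    intro x hx
    rw [List.mem_singleton] at hx
    subst hx
    exact hn
  have hw : ∀ z, wind [(e.og, e.hd)] z = Complex.arg ((e.hd - z) / (e.og - z)) := by
    intro z
    simp [wind]
  have t1 : Tendsto (fun ε : ℝ => lq d.og d.hd (1 / 2) ε) (𝓝[>] 0)
      (𝓝 (lq d.og d.hd (1 / 2) 0)) :=
    ((lq_cont _ _).tendsto 0).mono_left nhdsWithin_le_nhds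
  have t2 : Tendsto (fun ε : ℝ => lq d.og d.hd (1 / 2) (-ε)) (𝓝[>] 0)
      (𝓝 (lq d.og d.hd (1 / 2) 0)) := by
    have h3 : Tendsto (fun ε : ℝ => lq d.og d.hd (1 / 2) (-ε)) (𝓝 0)
        (𝓝 (lq d.og d.hd (1 / 2) (-0))) :=
      ((lq_cont _ _).comp continuous_neg).tendsto 0
    rw [neg_zero] at h3
    exact h3.mono_left nhdsWithin_le_nhds
  have s1 := hc.tendsto.comp t1
  have s2 := hc.tendsto.comp t2
  have s3 := s1.sub s2
  rw [sub_self] at s3
  refine s3.congr fun ε => ?_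
  simp only [Function.comp, hw]

end JumpLAux

open JumpLAux in
open Classical in
theorem wind_jumpL (h : LP R) (l : List (Drt R)) (d : Drt R) :
    Tendsto (fun ε : ℝ => wind (poly l) (lq d.og d.hd (1 / 2) ε)
      - wind (poly l) (lq d.og d.hd (1 / 2) (-ε))) (𝓝[>] 0)
      (𝓝 (2 * Real.pi * ((l.count d : ℝ) - l.count (d.rvL h)))) := by
  induction l with
  | nil =>
    simp [poly, wind]
  | cons e l ih =>
    have key : Tendsto (fun ε : ℝ =>
        Complex.arg ((e.hd - lq d.og d.hd (1 / 2) ε) / (e.og - lq d.og d.hd (1 / 2) ε))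
        - Complex.arg ((e.hd - lq d.og d.hd (1 / 2) (-ε)) / (e.og - lq d.og d.hd (1 / 2) (-ε))))
        (𝓝[>] 0) (𝓝 (2 * Real.pi * ((if e = d then 1 else 0) -
          (if e = d.rvL h then 1 else 0)))) := by
      by_cases h1 : e = d
      · subst h1
        rw [if_pos rfl, if_neg (Drt.rvL_ne h e).symm]
        have := arg_jump (Drt.og_ne_hdL h e)
        simpa using this
      · by_cases h2 : e = d.rvL h
        · subst h2
          rw [if_neg (Drt.rvL_ne h d), if_pos rfl]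
          have h3 := arg_jump' (Drt.og_ne_hdL h d)
          rw [Drt.hd_rvL]
          have h4 : (d.rvL h).og = d.hd := rfl
          rw [h4]
          have h5 : 2 * Real.pi * ((0 : ℝ) - 1) = -(2 * Real.pi) := by ring
          rw [h5]
          exact h3
        · rw [if_neg h1, if_neg h2]
          simpa using step_zero h h1 h2
    have h3 := key.add ih
    have h4 : 2 * Real.pi * ((if e = d then (1 : ℝ) else 0) - (if e = d.rvL h then 1 else 0)) +
        2 * Real.pi * ((l.count d : ℝ) - l.count (d.rvL h)) =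
        2 * Real.pi * (((e :: l).count d : ℝ) - (e :: l).count (d.rvL h)) := by
      rw [List.count_cons, List.count_cons]
      simp only [beq_iff_eq]
      push_cast
      ring
    rw [h4] at h3
    refine h3.congr fun ε => ?_
    simp only [poly, List.map_cons, wind_cons]
    ring

namespace JumpLAux

theorem walk_poly (h : LP R) {v w : ℂ} {l : List (Drt R)}
    (hl : IsWalk Drt.og (Drt.rvL h) v l w) :
    IsWalk (D := ℂ × ℂ) (V := ℂ) Prod.fst Prod.swap v (poly (R := R) l) w := by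
  induction hl with
  | nil v => exact IsWalk.nil v
  | cons d l w _ ih =>
    exact IsWalk.cons (org := (Prod.fst : ℂ × ℂ → ℂ)) (rev := Prod.swap)
      (Drt.og (R := R) d, Drt.hd (R := R) d) (poly (R := R) l) w ih

theorem seg_sub (h : LP R) (d : Drt R) : segment ℝ d.og d.hd ⊆ un R := by
  have h1 : Convex ℝ (car d.sg) := convex_segment _ _
  have h2 := h1.segment_subset (d.og_carL h) (d.hd_carL h)
  intro z hz
  exact Set.mem_biUnion d.mem (h2 hz)

theorem not_seg (h : LP R) (l : List (Drt R)) {z : ℂ} (hz : z ∉ un R) :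
    ∀ e ∈ poly l, z ∉ segment ℝ e.1 e.2 := by
  intro e he hze
  unfold poly at he
  rw [List.mem_map] at he
  obtain ⟨d, _, rfl⟩ := he
  exact hz (seg_sub h d hze)

theorem not_end (h : LP R) (l : List (Drt R)) {z : ℂ} (hz : z ∉ un R) :
    ∀ e ∈ poly l, z ≠ e.1 ∧ z ≠ e.2 := by
  intro e he
  have h1 := not_seg h l hz e he
  constructor
  · intro hh
    apply h1
    rw [hh]
    exact left_mem_segment ℝ _ _
  · intro hh
    apply h1
    rw [hh]
    exact right_mem_segment ℝ _ _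

open Classical in
/-- the winding number -/
noncomputable def kk (l : List (Drt R)) (z : ℂ) : ℤ :=
  if h : ∃ k : ℤ, wind (poly l) z = 2 * Real.pi * k then Classical.choose h else 0

theorem kk_spec {v : ℂ} {l : List (Drt R)} (hw : IsWalk Prod.fst Prod.swap v (poly l) v)
    (h : LP R) {z : ℂ} (hz : z ∉ un R) : wind (poly l) z = 2 * Real.pi * kk l z := by
  have hex := wind_int hw z (not_end h l hz)
  unfold kk
  rw [dif_pos hex]
  exact Classical.choose_spec hex

open Classical in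
/-- the colouring -/
noncomputable def cc (l : List (Drt R)) (C : Set ℂ) : ZMod 2 :=
  if h : ∃ z, z ∈ C ∧ z ∉ un R then ((kk l (Classical.choose h) : ℤ) : ZMod 2) else 0

theorem wind_comp {v : ℂ} {l : List (Drt R)} (hw : IsWalk Prod.fst Prod.swap v (poly l) v)
    (h : LP R) {z w : ℂ} (hz : z ∉ un R) (hzw : w ∈ connectedComponentIn (un R)ᶜ z) :
    wind (poly l) w = wind (poly l) z := by
  refine wind_const hw (isPreconnected_connectedComponentIn (F := (un R)ᶜ) (x := z)) ?_ hzw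
    (mem_connectedComponentIn hz)
  intro u hu
  exact not_seg h l (connectedComponentIn_subset _ _ hu)

theorem kk_comp {v : ℂ} {l : List (Drt R)} (hw : IsWalk Prod.fst Prod.swap v (poly l) v)
    (h : LP R) {z w : ℂ} (hz : z ∉ un R) (hzw : w ∈ connectedComponentIn (un R)ᶜ z) :
    kk l w = kk l z := by
  have h1 := wind_comp hw h hz hzw
  rw [kk_spec hw h hz, kk_spec hw h (connectedComponentIn_subset _ _ hzw)] at h1
  have h2 : (2 * Real.pi : ℝ) ≠ 0 := by positivity
  have h3 := mul_left_cancel₀ h2 h1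
  exact_mod_cast h3

theorem cc_comp {v : ℂ} {l : List (Drt R)} (hw : IsWalk Prod.fst Prod.swap v (poly l) v)
    (h : LP R) {z : ℂ} (hz : z ∉ un R) {C : Set ℂ} (hC : connectedComponentIn (un R)ᶜ z = C) :
    cc l C = ((kk l z : ℤ) : ZMod 2) := by
  have hex : ∃ z, z ∈ C ∧ z ∉ un R := ⟨z, hC ▸ mem_connectedComponentIn hz, hz⟩
  unfold cc
  rw [dif_pos hex]
  have h1 := Classical.choose_spec hex
  rw [kk_comp hw h hz (by rw [hC]; exact h1.1)]

theorem key {v : ℂ} {l : List (Drt R)} (hw : IsWalk Prod.fst Prod.swap v (poly l) v)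
    (h : LP R) (d : Drt R) {n m : ℕ}
    (hj : Tendsto (fun ε : ℝ => wind (poly l) (lq d.og d.hd (1 / 2) ε)
      - wind (poly l) (lq d.og d.hd (1 / 2) (-ε))) (𝓝[>] 0)
      (𝓝 (2 * Real.pi * ((n : ℝ) - m)))) :
    cc l (lreg R d.og d.hd) + cc l (lreg R (d.rvL h).og (d.rvL h).hd) = n + m := by
  obtain ⟨ε₁, h1, h1'⟩ := lreg_eqL h d.mem (d.og_carL h) (d.hd_carL h) (d.og_ne_hdL h) (d.disjL h)
    (t := 1 / 2) (by norm_num) (by norm_num)
  have hds : Disjoint (openSegment ℝ d.hd d.og) (Vx R) := by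
    rw [openSegment_symm]
    exact d.disjL h
  obtain ⟨ε₂, h2, h2'⟩ := lreg_eqL h d.mem (d.hd_carL h) (d.og_carL h) (d.og_ne_hdL h).symm hds
    (t := 1 / 2) (by norm_num) (by norm_num)
  have hrev : ∀ ε : ℝ, lq d.hd d.og (1 / 2) ε = lq d.og d.hd (1 / 2) (-ε) := by
    intro ε
    rw [lq_rev]
    norm_num
  have hog : (d.rvL h).og = d.hd := rfl
  rw [hog, Drt.hd_rvL h d]
  set ε₀ : ℝ := min ε₁ ε₂ / 2 with hε₀
  have hmin : 0 < min ε₁ ε₂ := lt_min h1 h2
  have h0 : 0 < ε₀ := by rw [hε₀]; linarith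
  have h01 : ε₀ < ε₁ := by
    have := min_le_left ε₁ ε₂
    rw [hε₀]; linarith
  have h02 : ε₀ < ε₂ := by
    have := min_le_right ε₁ ε₂
    rw [hε₀]; linarith
  obtain ⟨a1, a2⟩ := h1' ε₀ h0 h01
  obtain ⟨b1, b2⟩ := h2' ε₀ h0 h02
  rw [cc_comp hw h a1 a2, cc_comp hw h b1 b2]
  have hconst : (fun _ : ℝ => wind (poly l) (lq d.og d.hd (1 / 2) ε₀)
      - wind (poly l) (lq d.hd d.og (1 / 2) ε₀)) =ᶠ[𝓝[>] 0]
      (fun ε : ℝ => wind (poly l) (lq d.og d.hd (1 / 2) ε)
      - wind (poly l) (lq d.og d.hd (1 / 2) (-ε))) := by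
    have hIoo : Set.Ioo (0 : ℝ) ε₀ ∈ 𝓝[>] (0 : ℝ) := Ioo_mem_nhdsGT h0
    filter_upwards [hIoo] with ε hε
    obtain ⟨c1, c2⟩ := h1' ε hε.1 (hε.2.trans h01)
    obtain ⟨e1, e2⟩ := h2' ε hε.1 (hε.2.trans h02)
    rw [← hrev]
    have k1 : wind (poly l) (lq d.og d.hd (1 / 2) ε) = wind (poly l) (lq d.og d.hd (1 / 2) ε₀) := by
      refine wind_comp hw h a1 ?_
      rw [a2, ← c2]
      exact mem_connectedComponentIn c1
    have k2 : wind (poly l) (lq d.hd d.og (1 / 2) ε) = wind (poly l) (lq d.hd d.og (1 / 2) ε₀) := by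
      refine wind_comp hw h b1 ?_
      rw [b2, ← e2]
      exact mem_connectedComponentIn e1
    rw [k1, k2]
  have hlim := (tendsto_const_nhds (x := wind (poly l) (lq d.og d.hd (1 / 2) ε₀)
      - wind (poly l) (lq d.hd d.og (1 / 2) ε₀)) (f := 𝓝[>] (0 : ℝ))).congr' hconst
  have heq := tendsto_nhds_unique hlim hj
  rw [kk_spec hw h a1, kk_spec hw h b1] at heq
  have h2pi : (2 * Real.pi : ℝ) ≠ 0 := by positivity
  have h5 : ((kk l (lq d.og d.hd (1 / 2) ε₀) : ℤ) : ℝ) - ((kk l (lq d.hd d.og (1 / 2) ε₀) : ℤ) : ℝ)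
      = (n : ℝ) - m := by
    apply mul_left_cancel₀ h2pi
    rw [← heq]
    ring
  have h6 : kk l (lq d.og d.hd (1 / 2) ε₀) = kk l (lq d.hd d.og (1 / 2) ε₀) + n - m := by
    have : ((kk l (lq d.og d.hd (1 / 2) ε₀) : ℤ) : ℝ) =
        ((kk l (lq d.hd d.og (1 / 2) ε₀) + n - m : ℤ) : ℝ) := by
      push_cast
      linarith
    exact_mod_cast this
  rw [h6]
  push_cast
  have h7 : ∀ x y z : ZMod 2, x + y - z + x = y + z := by decide
  exact h7 _ _ _

end JumpLAux

open JumpLAux in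
open Classical in
theorem planarL (h : LP R) (v : ℂ) (l : List (Drt R)) (hl : IsWalk Drt.og (Drt.rvL h) v l v) :
    ∃ c : Set ℂ → ZMod 2, ∀ d : Drt R, c (lreg R d.og d.hd) + c (lreg R d.hd d.og)
      = l.count d + l.count (d.rvL h) := by
  refine ⟨cc (R := R) l, fun d => ?_⟩
  have hw := walk_poly h hl
  have hj := wind_jumpL h l d
  have hk := key hw h d hj
  rw [Drt.og_rvL, Drt.hd_rvL] at hk
  exact hk

end P7b
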