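import Pool.Agent.Lib.P7d.Loc
import Pool.Agent.Lib.P7b.GLeft

/-! MP_7b5a71, package D: the face on the left for `LP` families: copies of `lreg_eq`, `edge_ball` of `P7b/GLeft.lean` (same proofs with `loc_edgeL`), and consequences. -/

namespace P7b

open Complex

variable {R : Finset Sg}

namespace LeftAux

open GLeftAux

theorem strip_notL (h : LP R) {s : Sg} (hs : s ∈ R) {p q : ℂ} (hp : p ∈ car s) (hq : q ∈ car s)
    (hpq : p ≠ q) (hd : Disjoint (openSegment ℝ p q) (Vx R)) {a b : ℝ} (ha : 0 < a) (hb : b < 1)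
    (hab : a ≤ b) :
    ∃ ε₀ > 0, ∀ t, a ≤ t → t ≤ b → ∀ ε, 0 < ε → ε < ε₀ → lq p q t ε ∉ un R := by
  obtain ⟨ε₁, h1, h2⟩ := loc_edgeL h hs hp hq hd (m := lq p q a 0) (m' := lq p q b 0)
    (lq_zero_mem ha (by linarith)) (lq_zero_mem (by linarith) hb)
  have hn : 0 < ‖q - p‖ := norm_pos_iff.2 (sub_ne_zero.2 hpq.symm)
  refine ⟨ε₁ / ‖q - p‖, by positivity, ?_⟩
  intro t hta htb ε hε hε' hmem
  have h3 : dist (lq p q t ε) (lq p q t 0) < ε₁ := by
    rw [dist_lq p q t ε hε]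
    rwa [lt_div_iff₀ hn] at hε'
  exact lq_notMem_car hp hq hpq t hε.ne' (h2 _ (lq_seg p q hta htb) _ h3 hmem)

theorem stripL (h : LP R) {s : Sg} (hs : s ∈ R) {p q : ℂ} (hp : p ∈ car s) (hq : q ∈ car s)
    (hpq : p ≠ q) (hd : Disjoint (openSegment ℝ p q) (Vx R)) {a b : ℝ} (ha : 0 < a) (hb : b < 1)
    (ha' : a ≤ 1 / 2) (hb' : 1 / 2 ≤ b) :
    ∃ ε₀ > 0, ∀ t, a ≤ t → t ≤ b → ∀ ε, 0 < ε → ε < ε₀ → lq p q t ε ∉ un R ∧
      connectedComponentIn (un R)ᶜ (lq p q t ε) = lreg R p q := by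
  obtain ⟨ε₀, h0, h1⟩ := strip_notL h hs hp hq hpq hd ha hb (ha'.trans hb')
  refine ⟨ε₀, h0, ?_⟩
  -- the strip is preconnected
  have hpre : IsPreconnected ((fun x : ℝ × ℝ => lq p q x.1 x.2) ''
      (Set.Icc a b ×ˢ Set.Ioo 0 ε₀)) :=
    (isPreconnected_Icc.prod isPreconnected_Ioo).image _ (lq_continuous p q).continuousOn
  have hsub : ((fun x : ℝ × ℝ => lq p q x.1 x.2) '' (Set.Icc a b ×ˢ Set.Ioo 0 ε₀)) ⊆ (un R)ᶜ := by
    rintro _ ⟨⟨t, ε⟩, ⟨⟨hta, htb⟩, ⟨he, he'⟩⟩, rfl⟩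
    exact h1 t hta htb ε he he'
  have hcomp : ∀ t, a ≤ t → t ≤ b → ∀ ε, 0 < ε → ε < ε₀ → ∀ t', a ≤ t' → t' ≤ b →
      ∀ ε', 0 < ε' → ε' < ε₀ → connectedComponentIn (un R)ᶜ (lq p q t ε) =
        connectedComponentIn (un R)ᶜ (lq p q t' ε') := by
    intro t hta htb ε he he' t' hta' htb' ε' he1 he1'
    have m1 : lq p q t ε ∈ ((fun x : ℝ × ℝ => lq p q x.1 x.2) '' (Set.Icc a b ×ˢ Set.Ioo 0 ε₀)) :=
      ⟨(t, ε), ⟨⟨hta, htb⟩, ⟨he, he'⟩⟩, rfl⟩
    have m2 : lq p q t' ε' ∈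
        ((fun x : ℝ × ℝ => lq p q x.1 x.2) '' (Set.Icc a b ×ˢ Set.Ioo 0 ε₀)) :=
      ⟨(t', ε'), ⟨⟨hta', htb'⟩, ⟨he1, he1'⟩⟩, rfl⟩
    have h3 := hpre.subset_connectedComponentIn m1 hsub m2
    exact connectedComponentIn_eq h3
  intro t hta htb ε he he'
  refine ⟨h1 t hta htb ε he he', ?_⟩
  ext z
  constructor
  · intro hz
    refine ⟨ε₀, h0, ?_⟩
    intro ε' he1 he1'
    rw [← hcomp t hta htb ε he he' (1 / 2) ha' hb' ε' he1 he1']
    exact hz
  · rintro ⟨ε₁, hε₁, hz⟩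
    have hm : 0 < min ε₀ ε₁ / 2 := by positivity
    have hm0 : min ε₀ ε₁ / 2 < ε₀ := by
      have := min_le_left ε₀ ε₁
      have h' : 0 < min ε₀ ε₁ := lt_min h0 hε₁
      linarith
    have hm1 : min ε₀ ε₁ / 2 < ε₁ := by
      have := min_le_right ε₀ ε₁
      have h' : 0 < min ε₀ ε₁ := lt_min h0 hε₁
      linarith
    rw [hcomp t hta htb ε he he' (1 / 2) ha' hb' _ hm hm0]
    exact hz _ hm hm1

end LeftAux

open GLeftAux LeftAux

theorem lreg_eqL (h : LP R) {s : Sg} (hs : s ∈ R) {p q : ℂ} (hp : p ∈ car s) (hq : q ∈ car s)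
    (hpq : p ≠ q) (hd : Disjoint (openSegment ℝ p q) (Vx R)) {t : ℝ} (h0 : 0 < t) (h1 : t < 1) :
    ∃ ε₀ > 0, ∀ ε, 0 < ε → ε < ε₀ → lq p q t ε ∉ un R ∧
      connectedComponentIn (un R)ᶜ (lq p q t ε) = lreg R p q := by
  obtain ⟨ε₀, e0, h2⟩ := stripL h hs hp hq hpq hd (a := min t (1 / 2)) (b := max t (1 / 2))
    (lt_min h0 (by norm_num)) (max_lt h1 (by norm_num)) (min_le_right _ _) (le_max_right _ _)
  exact ⟨ε₀, e0, fun ε he he' => h2 t (min_le_left _ _) (le_max_left _ _) ε he he'⟩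

theorem edge_ballL (h : LP R) {s : Sg} (hs : s ∈ R) {p q : ℂ} (hp : p ∈ car s) (hq : q ∈ car s)
    (hpq : p ≠ q) (hd : Disjoint (openSegment ℝ p q) (Vx R)) {z : ℂ} (hz : z ∈ openSegment ℝ p q) :
    ∃ ε > 0, ∀ w, dist w z < ε → (w ∈ un R → w ∈ openSegment ℝ p q) ∧
      (w ∉ un R → connectedComponentIn (un R)ᶜ w = lreg R p q ∨
        connectedComponentIn (un R)ᶜ w = lreg R q p) := by
  have hz' := hz
  rw [openSegment_eq_image'] at hz'
  obtain ⟨t, ⟨ht0, ht1⟩, hzt⟩ := hz'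
  have hne : q - p ≠ 0 := sub_ne_zero.2 hpq.symm
  have hn : 0 < ‖q - p‖ := norm_pos_iff.2 hne
  set a : ℝ := min t (1 - t) / 2 with ha
  have hmin : 0 < min t (1 - t) := lt_min ht0 (by linarith)
  have ha0 : 0 < a := by positivity
  have hat : 2 * a ≤ t := by have := min_le_left t (1 - t); linarith
  have hat' : 2 * a ≤ 1 - t := by have := min_le_right t (1 - t); linarith
  have ha2 : a ≤ 1 / 2 := by linarith
  obtain ⟨ε₁, e1, h1⟩ := stripL h hs hp hq hpq hd (a := a) (b := 1 - a) ha0 (by linarith) ha2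
    (by linarith)
  have hd' : Disjoint (openSegment ℝ q p) (Vx R) := by rwa [openSegment_symm]
  obtain ⟨ε₂, e2, h2⟩ := stripL h hs hq hp hpq.symm hd' (a := a) (b := 1 - a) ha0 (by linarith) ha2
    (by linarith)
  obtain ⟨ε₃, e3, h3⟩ := loc_edgeL h hs hp hq hd hz hz
  refine ⟨min ε₃ (‖q - p‖ * min a (min ε₁ ε₂)), lt_min e3 (by positivity), ?_⟩
  intro w hw
  have hw3 : dist w z < ε₃ := lt_of_lt_of_le hw (min_le_left _ _)
  have hwn : dist w z < ‖q - p‖ * min a (min ε₁ ε₂) := lt_of_lt_of_le hw (min_le_right _ _)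
  set c : ℂ := (w - p) / (q - p) with hc
  have hcz : c - (t : ℂ) = (w - z) / (q - p) := by
    rw [hc, ← hzt]
    simp only [Complex.real_smul]
    field_simp
    ring
  have hcn : ‖c - (t : ℂ)‖ < min a (min ε₁ ε₂) := by
    rw [hcz, norm_div, div_lt_iff₀ hn, mul_comm, ← dist_eq_norm]
    exact hwn
  have hre : |c.re - t| < min a (min ε₁ ε₂) := by
    have := Complex.abs_re_le_norm (c - (t : ℂ))
    simp only [Complex.sub_re, Complex.ofReal_re] at this
    linarith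
  have him : |c.im| < min a (min ε₁ ε₂) := by
    have := Complex.abs_im_le_norm (c - (t : ℂ))
    simp only [Complex.sub_im, Complex.ofReal_im, sub_zero] at this
    linarith
  have hre' : |c.re - t| < a := lt_of_lt_of_le hre (min_le_left _ _)
  rw [abs_lt] at hre'
  have hr1 : a ≤ c.re := by linarith
  have hr2 : c.re ≤ 1 - a := by linarith
  have hwc : w = lq p q c.re c.im := coord hpq w
  constructor
  · intro hwu
    have hws : w ∈ car s := h3 z (left_mem_segment ℝ z z) w hw3 hwu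
    have him0 : c.im = 0 := by
      by_contra hcon
      rw [hwc] at hws
      exact lq_notMem_car hp hq hpq _ hcon hws
    rw [hwc, him0]
    exact lq_zero_mem (by linarith) (by linarith)
  · intro hwu
    rcases lt_trichotomy c.im 0 with hlt | heq | hgt
    · right
      have hw' : w = lq q p (1 - c.re) (-c.im) := by
        rw [lq_rev p q (1 - c.re) (-c.im)]
        simp only [sub_sub_cancel, neg_neg]
        exact hwc
      rw [hw']
      refine (h2 _ (by linarith) (by linarith) _ (by linarith) ?_).2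
      rw [abs_of_neg hlt] at him
      exact lt_of_lt_of_le him ((min_le_right _ _).trans (min_le_right _ _))
    · exfalso
      apply hwu
      have hmem : w ∈ openSegment ℝ p q := by
        rw [hwc, heq]
        exact lq_zero_mem (by linarith) (by linarith)
      exact Set.mem_biUnion hs (openSegment_sub hp hq hmem)
    · left
      rw [hwc]
      refine (h1 _ hr1 hr2 _ hgt ?_).2
      rw [abs_of_pos hgt] at him
      exact lt_of_lt_of_le him ((min_le_right _ _).trans (min_le_left _ _))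

/-- `lreg` of a dart equals a face as soon as the left points near one interior point are in it, and conversely -/
theorem lreg_eq_face_iff (h : LP R) (d : Drt R) {x : ℂ} (hx : x ∉ un R) {t : ℝ} (h0 : 0 < t)
    (h1 : t < 1) : lreg R d.og d.hd = face R x ↔
      ∃ ε₀ > 0, ∀ ε, 0 < ε → ε < ε₀ → lq d.og d.hd t ε ∈ face R x := by
  obtain ⟨ε₁, e1, h2⟩ := lreg_eqL h d.mem (d.og_carL h) (d.hd_carL h) (d.og_ne_hdL h) (d.disjL h)
    h0 h1
  constructor
  · intro heq
    refine ⟨ε₁, e1, fun ε he he' => ?_⟩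
    obtain ⟨h3, h4⟩ := h2 ε he he'
    rw [← heq, ← h4]
    exact mem_connectedComponentIn h3
  · rintro ⟨ε₀, e0, h3⟩
    have hm : 0 < min ε₀ ε₁ := lt_min e0 e1
    have hm0 : min ε₀ ε₁ / 2 < ε₀ := by
      have := min_le_left ε₀ ε₁
      linarith
    have hm1 : min ε₀ ε₁ / 2 < ε₁ := by
      have := min_le_right ε₀ ε₁
      linarith
    obtain ⟨h4, h5⟩ := h2 _ (half_pos hm) hm1
    have h6 := h3 _ (half_pos hm) hm0
    rw [← h5]
    unfold face at h6 ⊢
    exact (connectedComponentIn_eq h6).symm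

/-- the closed edge is in the frontier of the face on its left -/
theorem segment_sub_frontier (h : LP R) (d : Drt R) :
    segment ℝ d.og d.hd ⊆ frontier (lreg R d.og d.hd) := by
  have hsub : lreg R d.og d.hd ⊆ (un R)ᶜ := by
    obtain ⟨ε₁, e1, h2⟩ := lreg_eqL h d.mem (d.og_carL h) (d.hd_carL h) (d.og_ne_hdL h)
      (d.disjL h) (t := 1 / 2) (by norm_num) (by norm_num)
    obtain ⟨h3, h4⟩ := h2 (ε₁ / 2) (half_pos e1) (by linarith)
    rw [← h4]
    exact connectedComponentIn_subset _ _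
  have hopen : openSegment ℝ d.og d.hd ⊆ closure (lreg R d.og d.hd) := by
    intro z hz
    have hz' := hz
    rw [openSegment_eq_image'] at hz'
    obtain ⟨t, ⟨ht0, ht1⟩, hzt⟩ := hz'
    obtain ⟨ε₁, e1, h2⟩ := lreg_eqL h d.mem (d.og_carL h) (d.hd_carL h) (d.og_ne_hdL h)
      (d.disjL h) ht0 ht1
    have hz0 : lq d.og d.hd t 0 = z := by
      rw [← hzt]
      unfold lq
      simp [Complex.real_smul]
    have hc : Continuous (fun ε : ℝ => lq d.og d.hd t ε) :=
      (lq_continuous d.og d.hd).comp (Continuous.prodMk continuous_const continuous_id)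
    have ht : Filter.Tendsto (fun ε : ℝ => lq d.og d.hd t ε) (nhdsWithin 0 (Set.Ioi 0))
        (nhds z) := by
      have h5 := (hc.tendsto 0).mono_left (nhdsWithin_le_nhds (s := Set.Ioi (0 : ℝ)))
      rwa [hz0] at h5
    refine mem_closure_of_tendsto ht ?_
    filter_upwards [Ioo_mem_nhdsGT e1] with ε hε
    obtain ⟨h3, h4⟩ := h2 ε hε.1 hε.2
    rw [← h4]
    exact mem_connectedComponentIn h3
  have hcl : segment ℝ d.og d.hd ⊆ closure (lreg R d.og d.hd) := by
    rw [← closure_openSegment]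
    exact closure_minimal hopen isClosed_closure
  intro z hz
  refine ⟨hcl hz, fun hint => ?_⟩
  have h1 := hsub (interior_subset hint)
  apply h1
  have hcar : z ∈ car d.sg :=
    (convex_segment (𝕜 := ℝ) d.sg.1 d.sg.2).segment_subset (d.og_carL h) (d.hd_carL h) hz
  exact Set.mem_biUnion d.mem hcar

end P7b
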