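import Pool.Agent.Lib.P7d.Dart
import Pool.Agent.Lib.P7b.GLoc

/-! MP_7b5a71, package D: local structure for `LP` families: copies of `loc_edge`, `exists_dart`, `edge_uniq` of `P7b/GLoc.lean` (same proofs). -/

namespace P7b

open Complex

variable {R : Finset Sg}

theorem loc_edgeL (h : LP R) {s : Sg} (hs : s ∈ R) {p q : ℂ} (hp : p ∈ car s) (hq : q ∈ car s)
    (hd : Disjoint (openSegment ℝ p q) (Vx R)) {m m' : ℂ} (hm : m ∈ openSegment ℝ p q)
    (hm' : m' ∈ openSegment ℝ p q) :
    ∃ ε > 0, ∀ z ∈ segment ℝ m m', ∀ w, dist w z < ε → w ∈ un R → w ∈ car s := by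
  classical
  have hK : segment ℝ m m' ⊆ openSegment ℝ p q :=
    (convex_openSegment p q).segment_subset hm hm'
  have hcl : IsClosed (⋃ t ∈ (R.filter (fun t => t ≠ s)), car t) :=
    (R.filter (fun t => t ≠ s)).finite_toSet.isClosed_biUnion fun t _ => isClosed_car t
  have hsub : segment ℝ m m' ⊆ (⋃ t ∈ (R.filter (fun t => t ≠ s)), car t)ᶜ := by
    intro z hz hz'
    simp only [Set.mem_iUnion, Finset.mem_filter, exists_prop] at hz'
    obtain ⟨t, ⟨ht, hts⟩, hzt⟩ := hz'
    have hzs : z ∈ car s := openSegment_sub hp hq (hK hz)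
    exact Set.disjoint_left.1 hd (hK hz) (Or.inr ⟨s, hs, t, ht, Ne.symm hts, hzs, hzt⟩)
  have hcomp : IsCompact (segment ℝ m m') := by
    rw [segment_eq_image]
    refine isCompact_Icc.image ?_
    fun_prop
  obtain ⟨ε, hε, hth⟩ := hcomp.exists_thickening_subset_open hcl.isOpen_compl hsub
  refine ⟨ε, hε, fun z hz w hw hwu => ?_⟩
  have h1 : w ∈ Metric.thickening ε (segment ℝ m m') :=
    Metric.mem_thickening_iff.2 ⟨z, hz, hw⟩
  have h2 := hth h1
  unfold un at hwu
  simp only [Set.mem_iUnion, exists_prop] at hwu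
  obtain ⟨t, ht, hwt⟩ := hwu
  by_cases hts : t = s
  · rwa [hts] at hwt
  · exfalso
    apply h2
    simp only [Set.mem_iUnion, Finset.mem_filter, exists_prop]
    exact ⟨t, ⟨ht, hts⟩, hwt⟩

theorem exists_dartL (h : LP R) {z : ℂ} (hz : z ∈ un R) (hv : z ∉ Vx R) :
    ∃ d : Drt R, z ∈ openSegment ℝ d.og d.hd := by
  classical
  unfold un at hz
  simp only [Set.mem_iUnion, exists_prop] at hz
  obtain ⟨s, hs, hzs⟩ := hz
  have hne := h.ne s hs
  have hen : ∀ b, z ≠ en s b := by
    intro b hb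
    rw [hb] at hv
    exact hv (h.mem_VF.1 (h.en_mem_VF hs b)).1
  have h1 : tau s true (en s false) < tau s true z := by
    have := tau_lt_en hne false hzs (hen false)
    have e1 : ∀ w, tau s false w = - tau s true w := fun w => tau_not s true w
    rw [e1, e1] at this
    linarith
  have hF : ((VF R s).filter (fun v => tau s true v < tau s true z)).Nonempty :=
    ⟨en s false, Finset.mem_filter.2 ⟨h.en_mem_VF hs false, h1⟩⟩
  obtain ⟨q, hq, hmax⟩ := Finset.exists_max_image _ (tau s true) hF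
  rw [Finset.mem_filter] at hq
  have hq2 : q ≠ en s true := by
    intro hh
    have := tau_le_en hne true hzs
    rw [← hh] at this
    linarith [hq.2]
  obtain ⟨s1, s2, s3⟩ := h.sc_spec hs true hq.1 hq2
  refine ⟨⟨(s, true, q), hs, hq.1, hq2⟩, ?_⟩
  change z ∈ openSegment ℝ q (sc R s true q)
  rw [mem_openSegment_iff hne true (h.mem_VF.1 hq.1).2 (h.mem_VF.1 s1).2 hzs s2]
  refine ⟨hq.2, ?_⟩
  rcases lt_trichotomy (tau s true z) (tau s true (sc R s true q)) with h4 | h4 | h4
  · exact h4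
  · exfalso
    have := tau_inj hne true hzs (h.mem_VF.1 s1).2 h4
    rw [this] at hv
    exact hv (h.mem_VF.1 s1).1
  · exfalso
    have := hmax _ (Finset.mem_filter.2 ⟨s1, h4⟩)
    linarith

theorem edge_uniqL (h : LP R) {z : ℂ} {d e : Drt R} (hd : z ∈ openSegment ℝ d.og d.hd)
    (he : z ∈ openSegment ℝ e.og e.hd) : e = d ∨ e = d.rvL h := by
  -- the case of equal directions
  have same : ∀ d e : Drt R, z ∈ openSegment ℝ d.og d.hd → z ∈ openSegment ℝ e.og e.hd →
      d.dr = e.dr → e = d := by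
    intro d e hd he hde
    have hzd := openSegment_sub (d.og_carL h) (d.hd_carL h) hd
    have hze := openSegment_sub (e.og_carL h) (e.hd_carL h) he
    have hv : z ∉ Vx R := Set.disjoint_left.1 (d.disjL h) hd
    have hsg : d.sg = e.sg := by
      by_contra hne
      exact hv (Or.inr ⟨d.sg, d.mem, e.sg, e.mem, hne, hzd, hze⟩)
    have hne := h.ne d.sg d.mem
    obtain ⟨s1, s2, s3⟩ := h.sc_spec d.mem d.dr d.og_mem d.og_ne
    obtain ⟨t1, t2, t3⟩ := h.sc_spec e.mem e.dr e.og_mem e.og_ne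
    have k1 := (mem_openSegment_iff hne d.dr (d.og_carL h) (h.mem_VF.1 s1).2 hzd s2).1 hd
    have k2 := (mem_openSegment_iff (h.ne e.sg e.mem) e.dr (e.og_carL h) (h.mem_VF.1 t1).2 hze
      t2).1 he
    have hog : e.og ∈ VF R d.sg := by rw [hsg]; exact e.og_mem
    have hog' : d.og ∈ VF R e.sg := by rw [← hsg]; exact d.og_mem
    have heq : tau d.sg d.dr d.og = tau d.sg d.dr e.og := by
      rcases lt_trichotomy (tau d.sg d.dr d.og) (tau d.sg d.dr e.og) with h4 | h4 | h4
      · exfalso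
        have h5 := s3 _ hog h4
        rw [hsg, hde] at h5 k1
        linarith [k1.2, k2.1]
      · exact h4
      · exfalso
        rw [hsg, hde] at h4 k1
        have h5 := t3 _ hog' h4
        linarith [k1.1, k2.2]
    exact (Drt.ext' hsg hde (tau_inj hne d.dr (d.og_carL h) (h.mem_VF.1 hog).2 heq)).symm
  by_cases hde : d.dr = e.dr
  · exact Or.inl (same d e hd he hde)
  · right
    have h1 : (e.rvL h).hd = e.og := by
      change sc R e.sg (!e.dr) (sc R e.sg e.dr e.og) = e.og
      exact h.sc_sc e.mem e.dr e.og_mem e.og_ne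
    have h2 : z ∈ openSegment ℝ (e.rvL h).og (e.rvL h).hd := by
      rw [h1, openSegment_symm]
      exact he
    have h3 : d.dr = (e.rvL h).dr := by
      change d.dr = !e.dr
      revert hde
      cases d.dr <;> cases e.dr <;> simp
    have h4 := same d (e.rvL h) hd h2 h3
    rw [← h4]
    refine Drt.ext' rfl ?_ ?_
    · change e.dr = !!e.dr
      rw [Bool.not_not]
    · change e.og = (e.rvL h).hd
      exact h1.symm

/-- near a vertex the union consists of the radii in the directions of the outgoing darts.  (`loc_ball`: `v ∈ car s`; `w ∈ car s`, `w ≠ v`; `v` is a vertex of `s`; the direction `b` of `s` from `v` to `w`: `v ≠ en s b`, the dart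
`(s, b, v)`; `sub_eq`.) -/
theorem near_vertex (h : LP R) {v : ℂ} (hv : v ∈ Vx R) :
    ∃ r > 0, ∀ w, w ≠ v → dist w v < r → w ∈ un R →
      ∃ e : Drt R, e.og = v ∧ ∃ c : ℝ, 0 < c ∧ w - v = (c : ℂ) * (e.hd - v) := by
  obtain ⟨r, hr, hloc⟩ := loc_ball R v
  refine ⟨r, hr, fun w hwv hw hwu => ?_⟩
  unfold un at hwu
  simp only [Set.mem_iUnion, exists_prop] at hwu
  obtain ⟨s, hs, hws⟩ := hwu
  have hvs : v ∈ car s := hloc w hw s hs hws
  have hne := h.ne s hs
  have hvV : v ∈ VF R s := h.mem_VF.2 ⟨hv, hvs⟩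
  have hdir : ∃ b : Bool, tau s b v < tau s b w := by
    rcases lt_trichotomy (tau s true v) (tau s true w) with h4 | h4 | h4
    · exact ⟨true, h4⟩
    · exact absurd (tau_inj hne true hvs hws h4).symm hwv
    · refine ⟨false, ?_⟩
      have e1 : ∀ z, tau s false z = - tau s true z := fun z => tau_not s true z
      rw [e1, e1]
      linarith
  obtain ⟨b, hb⟩ := hdir
  have hen : v ≠ en s b := by
    intro hh
    have h5 := tau_le_en hne b hws
    rw [← hh] at h5
    linarith
  obtain ⟨s1, s2, s3⟩ := h.sc_spec hs b hvV hen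
  refine ⟨⟨(s, b, v), hs, hvV, hen⟩, rfl, (tau s b w - tau s b v) / (tau s b (sc R s b v) - tau s b v),
    div_pos (by linarith) (by linarith), ?_⟩
  change w - v = _ * (sc R s b v - v)
  rw [sub_eq hne b hvs hws, sub_eq hne b hvs (h.mem_VF.1 s1).2, ← mul_assoc, ← Complex.ofReal_mul,
    div_mul_cancel₀ _ (by linarith : tau s b (sc R s b v) - tau s b v ≠ 0)]

/-- every vertex has an outgoing dart -/
theorem exists_og (h : LP R) {v : ℂ} (hv : v ∈ Vx R) : ∃ e : Drt R, e.og = v := by
  have key : ∀ s ∈ R, v ∈ car s → ∃ e : Drt R, e.og = v := by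
    intro s hs hvs
    have hvV : v ∈ VF R s := h.mem_VF.2 ⟨hv, hvs⟩
    by_cases h1 : v = en s true
    · have h2 : v ≠ en s false := by
        rw [h1]
        exact en_ne (h.ne s hs) true
      exact ⟨⟨(s, false, v), hs, hvV, h2⟩, rfl⟩
    · exact ⟨⟨(s, true, v), hs, hvV, h1⟩, rfl⟩
  have hv' := hv
  rcases hv' with ⟨s, hs, h1 | h1⟩ | ⟨s, hs, t, ht, _, h1, _⟩
  · exact key s hs (by rw [h1]; exact fst_mem s)
  · exact key s hs (by rw [h1]; exact snd_mem s)
  · exact key s hs h1

end P7b
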