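import Pool.Agent.Lib.P7d.Left
import Pool.Agent.Lib.P7d.Nxt

/-! MP_7b5a71, package D: the sector between a dart and the next one.

Let `v = d.hd`, `β = d.og - v`, `e = nxtL d` (or any `e` with `IsNxt d e`), `A = turnA d e`.  `sector_off`: by `near_vertex` a point `w = v + ρ exp(-iθ) β` of `un R` with small `ρ` is on the radius of some outgoing dart `e'`, `cwa ((e'.hd - v)/β) = θ` (`cwa_polar`,
`cwa_mul_pos`), so `θ ≥ A`.
`sector_face`: the set of these points (`0 < ρ < r`, `0 < θ < A`) is connected (continuous image of a convex set) and off `un R`, and it contains the left points `lq d.og v t ε` for `t` near 1 and `0 < ε` small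
(`= v + β ((1-t) - ε i)`, `cwa_small`) and the left points of `e` near `v` (`lq v e.hd t ε = v + γ (t + ε i)`, `γ = e.hd - v = (positive) exp(-iA) β`: angle slightly less than `A`).  So the sector is inside `lreg` of both, and they are
equal (`lreg_eqL`). -/

namespace P7b

open Complex

variable {R : Finset Sg}

/-- the open sector at `v`, of radius `r` (in units of `|β|`), clockwise from the direction `β`, of angle `A` -/
def sector (v β : ℂ) (r A : ℝ) : Set ℂ :=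
  {z | ∃ ρ θ : ℝ, 0 < ρ ∧ ρ < r ∧ 0 < θ ∧ θ < A ∧ z = v + (ρ : ℂ) * Complex.exp (-(θ : ℂ) * I) * β}

namespace SectorAux

theorem conn (v β : ℂ) {r A : ℝ} : IsPreconnected (sector v β r A) := by
  have h1 : sector v β r A =
      (fun p : ℝ × ℝ => v + (p.1 : ℂ) * Complex.exp (-(p.2 : ℂ) * I) * β) ''
        (Set.Ioo 0 r ×ˢ Set.Ioo 0 A) := by
    ext z
    constructor
    · rintro ⟨ρ, θ, h1, h2, h3, h4, h5⟩
      exact ⟨(ρ, θ), ⟨⟨h1, h2⟩, ⟨h3, h4⟩⟩, h5.symm⟩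
    · rintro ⟨⟨ρ, θ⟩, ⟨⟨h1, h2⟩, ⟨h3, h4⟩⟩, h5⟩
      exact ⟨ρ, θ, h1, h2, h3, h4, h5.symm⟩
  rw [h1]
  refine (isPreconnected_Ioo.prod isPreconnected_Ioo).image _ (Continuous.continuousOn ?_)
  fun_prop

theorem beta_ne (h : LP R) (d : Drt R) : d.og - d.hd ≠ 0 := sub_ne_zero.2 (d.og_ne_hdL h)

theorem gam_ne (h : LP R) (e : Drt R) : e.hd - e.og ≠ 0 := sub_ne_zero.2 (e.og_ne_hdL h).symm

theorem seg_un (h : LP R) (e : Drt R) {c : ℝ} (h0 : 0 ≤ c) (h1 : c ≤ 1) :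
    e.og + (c : ℂ) * (e.hd - e.og) ∈ un R := by
  refine Set.mem_iUnion₂.2 ⟨e.sg, e.mem, segment_sub (e.og_carL h) (e.hd_carL h) ?_⟩
  rw [segment_eq_image']
  exact ⟨c, ⟨h0, h1⟩, by simp [Complex.real_smul]⟩

theorem hd_vx (h : LP R) (d : Drt R) : d.hd ∈ Vx R := (h.mem_VF.1 (d.hd_memL h)).1

theorem lq_left (a v : ℂ) (t ε : ℝ) :
    lq a v t ε = v + (((1 - t : ℝ) : ℂ) - (ε : ℂ) * I) * (a - v) := by
  unfold lq
  push_cast
  ring

theorem lq_right (v b : ℂ) (t ε : ℝ) :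
    lq v b t ε = v + ((t : ℂ) * (b - v) + (ε : ℂ) * (I * (b - v))) := by
  unfold lq
  ring

theorem norm_le {τ ε : ℝ} (h0 : 0 < τ) (h1 : 0 < ε) : ‖(τ : ℂ) - (ε : ℂ) * I‖ ≤ τ + ε := by
  refine (norm_sub_le _ _).trans ?_
  rw [norm_mul, Complex.norm_I, mul_one, Complex.norm_real, Complex.norm_real,
    Real.norm_of_nonneg h0.le, Real.norm_of_nonneg h1.le]

theorem w_ne {τ ε : ℝ} (h0 : 0 < τ) : (τ : ℂ) - (ε : ℂ) * I ≠ 0 := by
  intro hh
  have := congrArg Complex.re hh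
  simp at this
  exact h0.ne' this

theorem left_pt (v β : ℂ) {r A : ℝ} (hA : 0 < A) {t : ℝ} (ht : 1 - r / 2 < t)
    (ht1 : t < 1) :
    ∃ ε₀ > 0, ∀ ε : ℝ, 0 < ε → ε < ε₀ →
      v + (((1 - t : ℝ) : ℂ) - (ε : ℂ) * I) * β ∈ sector v β r A := by
  have hτ : 0 < 1 - t := by linarith
  obtain ⟨ε₁, h1, h2⟩ := cwa_small hτ hA
  refine ⟨min ε₁ (r / 2), lt_min h1 (by linarith), fun ε h3 h4 => ?_⟩
  have h5 := h2 ε h3 (h4.trans_le (min_le_left _ _))
  have h6 : ε < r / 2 := h4.trans_le (min_le_right _ _)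
  have hw := w_ne (ε := ε) hτ
  refine ⟨‖((1 - t : ℝ) : ℂ) - (ε : ℂ) * I‖, cwa (((1 - t : ℝ) : ℂ) - (ε : ℂ) * I),
    norm_pos_iff.2 hw, ?_, cwa_pos _, h5, ?_⟩
  · have := norm_le hτ h3
    linarith
  · rw [← eq_of_cwa hw]

theorem right_pt {β γ : ℂ} (hβ : β ≠ 0) (hγ : γ ≠ 0) {r η : ℝ} (hr : 0 < r) (hη : 0 < η) :
    ∃ t₀ > (0 : ℝ), ∀ t, 0 < t → t < t₀ → ∃ ε₀ > (0 : ℝ), ∀ ε, 0 < ε → ε < ε₀ →
      ∃ ρ θ : ℝ, 0 < ρ ∧ ρ < r ∧ cwa (γ / β) - η < θ ∧ θ < cwa (γ / β) ∧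
        (t : ℂ) * γ + (ε : ℂ) * (I * γ) = (ρ : ℂ) * Complex.exp (-(θ : ℂ) * I) * β := by
  have hκ : 0 < ‖γ / β‖ := norm_pos_iff.2 (div_ne_zero hγ hβ)
  refine ⟨r / (2 * ‖γ / β‖), by positivity, fun t ht ht1 => ?_⟩
  obtain ⟨ε₁, h1, h2⟩ := cwa_small ht hη
  refine ⟨min ε₁ (r / (2 * ‖γ / β‖)), lt_min h1 (by positivity), fun ε h3 h4 => ?_⟩
  have h5 := h2 ε h3 (h4.trans_le (min_le_left _ _))
  have h6 : ε < r / (2 * ‖γ / β‖) := h4.trans_le (min_le_right _ _)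
  have hw := w_ne (ε := ε) ht
  refine ⟨‖γ / β‖ * ‖(t : ℂ) - (ε : ℂ) * I‖, cwa (γ / β) - cwa ((t : ℂ) - (ε : ℂ) * I),
    mul_pos hκ (norm_pos_iff.2 hw), ?_, by linarith, by linarith [cwa_pos ((t : ℂ) - (ε : ℂ) * I)],
    ?_⟩
  · have h7 := norm_le ht h3
    rw [lt_div_iff₀ (by positivity)] at ht1 h6
    have h8 : ‖γ / β‖ * ‖(t : ℂ) - (ε : ℂ) * I‖ ≤ ‖γ / β‖ * (t + ε) :=
      mul_le_mul_of_nonneg_left h7 hκ.le
    nlinarith
  · have e1 : γ = ((‖γ / β‖ : ℝ) : ℂ) * Complex.exp (-(cwa (γ / β) : ℂ) * I) * β := by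
      rw [← eq_of_cwa (div_ne_zero hγ hβ), div_mul_cancel₀ _ hβ]
    have e2 : (t : ℂ) + (ε : ℂ) * I = ((‖(t : ℂ) - (ε : ℂ) * I‖ : ℝ) : ℂ) *
        Complex.exp ((cwa ((t : ℂ) - (ε : ℂ) * I) : ℂ) * I) := by
      have e3 := congrArg (starRingEnd ℂ) (eq_of_cwa hw)
      rw [map_sub, map_mul, Complex.conj_ofReal, Complex.conj_ofReal, Complex.conj_I, map_mul,
        Complex.conj_ofReal, ← Complex.exp_conj, map_mul, map_neg, Complex.conj_ofReal,
        Complex.conj_I] at e3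
      rw [neg_mul_neg] at e3
      rw [← e3]
      ring
    have e4 : Complex.exp (-((cwa (γ / β) - cwa ((t : ℂ) - (ε : ℂ) * I) : ℝ) : ℂ) * I) =
        Complex.exp (-(cwa (γ / β) : ℂ) * I) *
          Complex.exp ((cwa ((t : ℂ) - (ε : ℂ) * I) : ℂ) * I) := by
      rw [← Complex.exp_add]
      congr 1
      push_cast
      ring
    have e5 : (t : ℂ) * γ + (ε : ℂ) * (I * γ) = ((t : ℂ) + (ε : ℂ) * I) * γ := by ring
    rw [e5, e4, e2]
    conv_lhs => rw [e1]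
    push_cast
    ring

theorem turn_polar (h : LP R) {d e : Drt R} (ho : e.og = d.hd) :
    e.hd - d.hd = ((‖(e.hd - d.hd) / (d.og - d.hd)‖ : ℝ) : ℂ) *
      Complex.exp (-(turnA d e : ℂ) * I) * (d.og - d.hd) := by
  have h1 := beta_ne h d
  have h2 : e.hd - d.hd ≠ 0 := by rw [← ho]; exact gam_ne h e
  unfold turnA
  rw [← eq_of_cwa (div_ne_zero h2 h1), div_mul_cancel₀ _ h1]

theorem turn_pos (d e : Drt R) : 0 < turnA d e := cwa_pos _

theorem turn_le (d e : Drt R) : turnA d e ≤ 2 * Real.pi := cwa_le _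

/-- the clockwise angle off the positive axis -/
theorem cwa_eq_arg {w : ℂ} (hw : -w ∈ Complex.slitPlane) : cwa w = Real.pi - Complex.arg (-w) := by
  have h0 : -w ≠ 0 := Complex.slitPlane_ne_zero hw
  have h1 := (Complex.mem_slitPlane_iff_arg.1 hw).1
  have h2 := Complex.arg_le_pi (-w)
  have h3 := Complex.neg_pi_lt_arg (-w)
  have h4 : Complex.arg (-w) < Real.pi := lt_of_le_of_ne h2 h1
  have h5 : w = ((‖w‖ : ℝ) : ℂ) *
      Complex.exp (-((Real.pi - Complex.arg (-w) : ℝ) : ℂ) * I) := by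
    have h6 : Complex.exp (-((Real.pi - Complex.arg (-w) : ℝ) : ℂ) * I) =
        - Complex.exp ((Complex.arg (-w) : ℂ) * I) := by
      have h7 : -((Real.pi - Complex.arg (-w) : ℝ) : ℂ) * I =
          (Complex.arg (-w) : ℂ) * I - (Real.pi : ℂ) * I := by push_cast; ring
      rw [h7, Complex.exp_sub, Complex.exp_pi_mul_I]
      ring
    rw [h6]
    have h8 := Complex.norm_mul_exp_arg_mul_I (-w)
    rw [norm_neg] at h8
    linear_combination h8
  have hn : 0 < ‖w‖ := by rw [← norm_neg]; exact norm_pos_iff.2 h0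
  conv_lhs => rw [h5]
  exact cwa_polar hn (by linarith) (by linarith)

end SectorAux

open SectorAux

theorem sector_conn (v β : ℂ) {r A : ℝ} : IsPreconnected (sector v β r A) := by
  exact SectorAux.conn v β

theorem sector_off (h : LP R) {d e : Drt R} (he : IsNxt d e) :
    ∃ r > 0, ∀ z ∈ sector d.hd (d.og - d.hd) r (turnA d e), z ∉ un R := by
  obtain ⟨r, hr, hnear⟩ := near_vertex h (hd_vx h d)
  have hβ := beta_ne h d
  have hb : 0 < ‖d.og - d.hd‖ := norm_pos_iff.2 hβ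
  refine ⟨r / ‖d.og - d.hd‖, div_pos hr hb, ?_⟩
  rintro z ⟨ρ, θ, h1, h2, h3, h4, rfl⟩ hz
  have hexp : Complex.exp (-(θ : ℂ) * I) ≠ 0 := Complex.exp_ne_zero _
  have hρ : (ρ : ℂ) ≠ 0 := by exact_mod_cast h1.ne'
  have hne : d.hd + (ρ : ℂ) * Complex.exp (-(θ : ℂ) * I) * (d.og - d.hd) ≠ d.hd := by
    intro hh
    have : (ρ : ℂ) * Complex.exp (-(θ : ℂ) * I) * (d.og - d.hd) = 0 := by
      linear_combination hh
    exact mul_ne_zero (mul_ne_zero hρ hexp) hβ this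
  have hexpn : ‖Complex.exp (-(θ : ℂ) * I)‖ = 1 := by
    have : -(θ : ℂ) * I = ((-θ : ℝ) : ℂ) * I := by push_cast; ring
    rw [this]
    exact Complex.norm_exp_ofReal_mul_I _
  have hdist : dist (d.hd + (ρ : ℂ) * Complex.exp (-(θ : ℂ) * I) * (d.og - d.hd)) d.hd < r := by
    rw [dist_eq_norm, add_sub_cancel_left, norm_mul, norm_mul, hexpn, mul_one,
      Complex.norm_real, Real.norm_of_nonneg h1.le]
    exact (lt_div_iff₀ hb).1 h2
  obtain ⟨e', ho, c, hc, hcc⟩ := hnear _ hne hdist hz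
  have hc' : (c : ℂ) ≠ 0 := by exact_mod_cast hc.ne'
  have ht : turnA d e' = θ := by
    unfold turnA
    have e1 : (e'.hd - d.hd) / (d.og - d.hd) =
        ((ρ / c : ℝ) : ℂ) * Complex.exp (-(θ : ℂ) * I) := by
      rw [add_sub_cancel_left] at hcc
      rw [div_eq_iff hβ]
      push_cast
      refine mul_left_cancel₀ hc' ?_
      rw [← hcc]
      have h7 : (c : ℂ) * ((ρ : ℂ) / (c : ℂ)) = (ρ : ℂ) := mul_div_cancel₀ _ hc'
      linear_combination (-(Complex.exp (-(θ : ℂ) * I) * (d.og - d.hd))) * h7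
    rw [e1]
    exact cwa_polar (div_pos h1 hc) h3 (h4.le.trans (turn_le d e))
  have := he.2 e' ho
  rw [ht] at this
  linarith

theorem sector_face (h : LP R) {d e : Drt R} (he : IsNxt d e) :
    lreg R e.og e.hd = lreg R d.og d.hd ∧
      ∃ r > 0, sector d.hd (d.og - d.hd) r (turnA d e) ⊆ lreg R d.og d.hd := by
  obtain ⟨r, hr, hoff⟩ := sector_off h he
  have hβ := beta_ne h d
  have hA := turn_pos d e
  have hγ : e.hd - d.hd ≠ 0 := by rw [← he.1]; exact gam_ne h e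
  have hsub : sector d.hd (d.og - d.hd) r (turnA d e) ⊆ (un R)ᶜ := fun z hz => hoff z hz
  -- the left points of `d`
  have ht : ∃ t : ℝ, 1 - r / 2 < t ∧ 0 < t ∧ t < 1 := by
    refine ⟨(max (1 - r / 2) 0 + 1) / 2, ?_, ?_, ?_⟩
    · have h1 : max (1 - r / 2) 0 < 1 := max_lt (by linarith) one_pos
      have h2 := le_max_left (1 - r / 2) 0
      linarith
    · have h2 := le_max_right (1 - r / 2) 0
      linarith
    · have h1 : max (1 - r / 2) 0 < 1 := max_lt (by linarith) one_pos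
      linarith
  obtain ⟨t, ht1, ht0, ht2⟩ := ht
  obtain ⟨ε₁, p1, p2⟩ := left_pt d.hd (d.og - d.hd) hA ht1 ht2
  obtain ⟨ε₂, q1, q2⟩ := lreg_eqL h d.mem (d.og_carL h) (d.hd_carL h) (d.og_ne_hdL h)
    (d.disjL h) ht0 ht2
  have hm : 0 < min ε₁ ε₂ := lt_min p1 q1
  have m1 := p2 (min ε₁ ε₂ / 2) (by linarith) (by have := min_le_left ε₁ ε₂; linarith)
  have m2 := q2 (min ε₁ ε₂ / 2) (by linarith) (by have := min_le_right ε₁ ε₂; linarith)
  rw [lq_left] at m2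
  have hS : sector d.hd (d.og - d.hd) r (turnA d e) ⊆ lreg R d.og d.hd := by
    rw [← m2.2]
    exact (sector_conn _ _).subset_connectedComponentIn m1 hsub
  refine ⟨?_, r, hr, hS⟩
  -- the left points of `e`
  obtain ⟨t₀, a1, a2⟩ := right_pt hβ hγ hr hA
  have hu0 : 0 < min t₀ 1 / 2 := by
    have := lt_min a1 one_pos
    linarith
  have hu1 : min t₀ 1 / 2 < t₀ := by
    have := min_le_left t₀ 1
    linarith
  have hu2 : min t₀ 1 / 2 < 1 := by
    have := min_le_right t₀ 1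
    linarith
  obtain ⟨ε₃, b1, b2⟩ := a2 _ hu0 hu1
  obtain ⟨ε₄, c1, c2⟩ := lreg_eqL h e.mem (e.og_carL h) (e.hd_carL h) (e.og_ne_hdL h)
    (e.disjL h) hu0 hu2
  have hm' : 0 < min ε₃ ε₄ := lt_min b1 c1
  obtain ⟨ρ, θ, g1, g2, g3, g4, g5⟩ := b2 (min ε₃ ε₄ / 2) (by linarith)
    (by have := min_le_left ε₃ ε₄; linarith)
  have m4 := c2 (min ε₃ ε₄ / 2) (by linarith) (by have := min_le_right ε₃ ε₄; linarith)
  rw [lq_right, he.1, g5] at m4
  have g3' : 0 < θ := by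
    have : cwa ((e.hd - d.hd) / (d.og - d.hd)) = turnA d e := rfl
    rw [this] at g3
    linarith
  have m5 : d.hd + (ρ : ℂ) * Complex.exp (-(θ : ℂ) * I) * (d.og - d.hd) ∈
      sector d.hd (d.og - d.hd) r (turnA d e) := ⟨ρ, θ, g1, g2, g3', g4, rfl⟩
  rw [he.1, ← m4.2]
  have m6 := hS m5
  rw [← m2.2] at m6 ⊢
  exact (connectedComponentIn_eq m6).symm

theorem lreg_nxtL (h : LP R) (d : Drt R) :
    lreg R (nxtL h d).og (nxtL h d).hd = lreg R d.og d.hd := (sector_face h (nxtL_spec h d)).1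

/-- Criterion for the next dart: if the sector from `d` to `e` (clockwise) is off `un R` near the vertex then `e` is the next dart. -/
theorem isNxt_of_sector (h : LP R) {d e : Drt R} (ho : e.og = d.hd) {r : ℝ} (hr : 0 < r)
    (hs : ∀ z ∈ sector d.hd (d.og - d.hd) r (turnA d e), z ∉ un R) : IsNxt d e := by
  refine ⟨ho, fun e' ho' => ?_⟩
  by_contra hcon
  push Not at hcon
  have hβ := beta_ne h d
  have hγ : e'.hd - d.hd ≠ 0 := by rw [← ho']; exact gam_ne h e'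
  have hκ : 0 < ‖(e'.hd - d.hd) / (d.og - d.hd)‖ := norm_pos_iff.2 (div_ne_zero hγ hβ)
  have hp := turn_polar h ho'
  obtain ⟨c, hc0, hc1, hc2⟩ : ∃ c : ℝ, 0 < c ∧ c ≤ 1 ∧
      c * ‖(e'.hd - d.hd) / (d.og - d.hd)‖ < r := by
    refine ⟨min 1 (r / (2 * ‖(e'.hd - d.hd) / (d.og - d.hd)‖)), lt_min one_pos (by positivity),
      min_le_left _ _, ?_⟩
    have h1 : min 1 (r / (2 * ‖(e'.hd - d.hd) / (d.og - d.hd)‖)) *
        ‖(e'.hd - d.hd) / (d.og - d.hd)‖ ≤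
        r / (2 * ‖(e'.hd - d.hd) / (d.og - d.hd)‖) * ‖(e'.hd - d.hd) / (d.og - d.hd)‖ :=
      mul_le_mul_of_nonneg_right (min_le_right _ _) hκ.le
    have h2 : r / (2 * ‖(e'.hd - d.hd) / (d.og - d.hd)‖) *
        ‖(e'.hd - d.hd) / (d.og - d.hd)‖ = r / 2 := by
      field_simp
    rw [h2] at h1
    linarith
  refine hs (d.hd + (c : ℂ) * (e'.hd - d.hd)) ⟨c * ‖(e'.hd - d.hd) / (d.og - d.hd)‖,
    turnA d e', mul_pos hc0 hκ, hc2, turn_pos d e', hcon, ?_⟩ ?_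
  · conv_lhs => rw [hp]
    push_cast
    ring
  · have := seg_un h e' hc0.le hc1
    rwa [ho'] at this

/-- Second criterion: the left points of `d` near its head and the left points of `e` near its origin are joined off `un R` inside every small ball around the vertex.  (Let `e₁` be the next dart and suppose
`turnA d e₁ < turnA d e`: then in a small ball the left points of `d` are in the sector between `rvL d` and `e₁`, those of `e` are not; the sector is open and closed in (ball minus `un R` minus `{v}`): its boundary in the ball consists of the two radii.) -/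
theorem isNxt_of_joined (h : LP R) {d e : Drt R} (ho : e.og = d.hd)
    (hj : ∀ r > 0, ∃ K : Set ℂ, IsPreconnected K ∧ K ⊆ Metric.ball d.hd r ∧ (∀ z ∈ K, z ∉ un R) ∧
      (∃ t < (1 : ℝ), ∀ t', t < t' → t' < 1 → ∃ ε₀ > 0, ∀ ε, 0 < ε → ε < ε₀ → lq d.og d.hd t' ε ∈ K) ∧
      (∃ t > (0 : ℝ), ∀ t', 0 < t' → t' < t → ∃ ε₀ > 0, ∀ ε, 0 < ε → ε < ε₀ → lq e.og e.hd t' ε ∈ K)) :
    IsNxt d e := by
  have hβ := beta_ne h d
  have he₁ := nxtL_spec h d
  set e₁ := nxtL h d with he₁def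
  by_cases hlt : turnA d e ≤ turnA d e₁
  · exact ⟨ho, fun e' he' => hlt.trans (he₁.2 e' he')⟩
  push Not at hlt
  exfalso
  have hγ : e.hd - d.hd ≠ 0 := by rw [← ho]; exact gam_ne h e
  have hγ₁ : e₁.hd - d.hd ≠ 0 := by rw [← he₁.1]; exact gam_ne h e₁
  have hκ₁ : 0 < ‖(e₁.hd - d.hd) / (d.og - d.hd)‖ := norm_pos_iff.2 (div_ne_zero hγ₁ hβ)
  have hb : 0 < ‖d.og - d.hd‖ := norm_pos_iff.2 hβ
  obtain ⟨K, hK, hball, hoff, ⟨t, ht1, hleft⟩, ⟨u, hu0, hright⟩⟩ :=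
    hj (min ‖d.og - d.hd‖ ‖e₁.hd - d.hd‖) (lt_min hb (norm_pos_iff.2 hγ₁))
  have hA₁ := turn_pos d e₁
  -- the points of `K` are not on the two radii
  have key : ∀ z ∈ K, ∀ c : ℝ, 0 ≤ c → z ≠ d.hd + (c : ℂ) * (d.og - d.hd) := by
    intro z hz c hc hzc
    have h1 := Metric.mem_ball.1 (hball hz)
    rw [hzc, dist_eq_norm, add_sub_cancel_left, norm_mul, Complex.norm_real,
      Real.norm_of_nonneg hc] at h1
    have h2 := h1.trans_le (min_le_left _ _)
    have h3 : c < 1 := by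
      by_contra hh
      push Not at hh
      nlinarith
    refine hoff z hz ?_
    have h4 := seg_un h (d.rvL h) hc h3.le
    rw [Drt.og_rvL, Drt.hd_rvL] at h4
    rw [hzc]
    exact h4
  have key₁ : ∀ z ∈ K, ∀ c : ℝ, 0 ≤ c → z ≠ d.hd + (c : ℂ) * (e₁.hd - d.hd) := by
    intro z hz c hc hzc
    have h1 := Metric.mem_ball.1 (hball hz)
    rw [hzc, dist_eq_norm, add_sub_cancel_left, norm_mul, Complex.norm_real,
      Real.norm_of_nonneg hc] at h1
    have h2 := h1.trans_le (min_le_right _ _)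
    have h3 : c < 1 := by
      by_contra hh
      push Not at hh
      have := norm_pos_iff.2 hγ₁
      nlinarith
    refine hoff z hz ?_
    have h4 := seg_un h e₁ hc h3.le
    rw [he₁.1] at h4
    rw [hzc]
    exact h4
  have hslit : ∀ z ∈ K, -((z - d.hd) / (d.og - d.hd)) ∈ Complex.slitPlane := by
    intro z hz
    by_contra hcon
    rw [Complex.mem_slitPlane_iff, not_or, not_lt, not_ne_iff] at hcon
    obtain ⟨h1, h2⟩ := hcon
    refine key z hz ((z - d.hd) / (d.og - d.hd)).re ?_ ?_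
    · rw [Complex.neg_re] at h1
      linarith
    · have h3 : ((((z - d.hd) / (d.og - d.hd)).re : ℝ) : ℂ) = (z - d.hd) / (d.og - d.hd) := by
        refine Complex.ext ?_ ?_
        · simp
        · rw [Complex.neg_im] at h2
          rw [Complex.ofReal_im]
          linarith
      rw [h3, div_mul_cancel₀ _ hβ]
      ring
  have hne₁ : ∀ z ∈ K, cwa ((z - d.hd) / (d.og - d.hd)) ≠ turnA d e₁ := by
    intro z hz hzc
    have hz0 : z - d.hd ≠ 0 := by
      intro hh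
      refine key z hz 0 le_rfl ?_
      push_cast
      linear_combination hh
    have h1 := eq_of_cwa (div_ne_zero hz0 hβ)
    rw [hzc] at h1
    obtain ⟨κ, hκ, h2⟩ : ∃ κ : ℝ, 0 < κ ∧ e₁.hd - d.hd = (κ : ℂ) *
        Complex.exp (-(turnA d e₁ : ℂ) * I) * (d.og - d.hd) := ⟨_, hκ₁, turn_polar h he₁.1⟩
    obtain ⟨ρ, hρ, h3⟩ : ∃ ρ : ℝ, 0 ≤ ρ ∧ z - d.hd = (ρ : ℂ) *
        Complex.exp (-(turnA d e₁ : ℂ) * I) * (d.og - d.hd) :=
      ⟨‖(z - d.hd) / (d.og - d.hd)‖, norm_nonneg _, by rw [← h1, div_mul_cancel₀ _ hβ]⟩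
    refine key₁ z hz (ρ / κ) (by positivity) ?_
    have hk : (κ : ℂ) ≠ 0 := by exact_mod_cast hκ.ne'
    rw [h2, Complex.ofReal_div]
    linear_combination h3 - (Complex.exp (-(turnA d e₁ : ℂ) * I) * (d.og - d.hd)) *
      (div_mul_cancel₀ (ρ : ℂ) hk)
  have hcont : ContinuousOn (fun z => Real.pi - Complex.arg (-((z - d.hd) / (d.og - d.hd)))) K := by
    refine continuousOn_const.sub ?_
    intro z hz
    have h1 : ContinuousAt (fun z : ℂ => -((z - d.hd) / (d.og - d.hd))) z := by fun_prop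
    exact (ContinuousAt.comp (f := fun z : ℂ => -((z - d.hd) / (d.og - d.hd))) (g := Complex.arg)
      (Complex.continuousAt_arg (hslit z hz)) h1).continuousWithinAt
  have himg := (hK.image _ hcont).ordConnected
  -- a point of `K` in the first sector
  have ht : ∃ t' : ℝ, t < t' ∧ 1 - (1 : ℝ) / 2 < t' ∧ t' < 1 := by
    refine ⟨(max t (1 - (1 : ℝ) / 2) + 1) / 2, ?_, ?_, ?_⟩
    · have h1 : max t (1 - (1 : ℝ) / 2) < 1 := max_lt ht1 (by norm_num)
      have h2 := le_max_left t (1 - (1 : ℝ) / 2)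
      linarith
    · have h1 : max t (1 - (1 : ℝ) / 2) < 1 := max_lt ht1 (by norm_num)
      have h2 := le_max_right t (1 - (1 : ℝ) / 2)
      linarith
    · have h1 : max t (1 - (1 : ℝ) / 2) < 1 := max_lt ht1 (by norm_num)
      linarith
  obtain ⟨t', ht2, ht3, ht4⟩ := ht
  obtain ⟨ε₁, p1, p2⟩ := left_pt d.hd (d.og - d.hd) hA₁ ht3 ht4
  obtain ⟨ε₂, q1, q2⟩ := hleft t' ht2 ht4
  have hm : 0 < min ε₁ ε₂ := lt_min p1 q1
  have m1 := p2 (min ε₁ ε₂ / 2) (by linarith) (by have := min_le_left ε₁ ε₂; linarith)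
  have m2 := q2 (min ε₁ ε₂ / 2) (by linarith) (by have := min_le_right ε₁ ε₂; linarith)
  rw [lq_left] at m2
  obtain ⟨ρ, θ, g1, g2, g3, g4, g5⟩ := m1
  rw [g5] at m2
  -- a point of `K` in the second sector
  have hη : 0 < turnA d e - turnA d e₁ := by linarith
  obtain ⟨t₀, a1, a2⟩ := right_pt hβ hγ one_pos hη
  have hu1 : 0 < min t₀ u := lt_min a1 hu0
  obtain ⟨ε₃, b1, b2⟩ := a2 (min t₀ u / 2) (by linarith)
    (by have := min_le_left t₀ u; linarith)
  obtain ⟨ε₄, c1, c2⟩ := hright (min t₀ u / 2) (by linarith)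
    (by have := min_le_right t₀ u; linarith)
  have hm' : 0 < min ε₃ ε₄ := lt_min b1 c1
  obtain ⟨ρ', θ', k1, k2, k3, k4, k5⟩ := b2 (min ε₃ ε₄ / 2) (by linarith)
    (by have := min_le_left ε₃ ε₄; linarith)
  have m4 := c2 (min ε₃ ε₄ / 2) (by linarith) (by have := min_le_right ε₃ ε₄; linarith)
  rw [lq_right, ho, k5] at m4
  have hrfl : cwa ((e.hd - d.hd) / (d.og - d.hd)) = turnA d e := rfl
  rw [hrfl] at k3 k4
  -- the values
  have hval : ∀ ρ θ : ℝ, 0 < ρ → 0 < θ → θ < 2 * Real.pi →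
      d.hd + (ρ : ℂ) * Complex.exp (-(θ : ℂ) * I) * (d.og - d.hd) ∈ K →
      Real.pi - Complex.arg (-((d.hd + (ρ : ℂ) * Complex.exp (-(θ : ℂ) * I) * (d.og - d.hd) -
        d.hd) / (d.og - d.hd))) = θ := by
    intro ρ θ h1 h2 h3 h4
    rw [← cwa_eq_arg (hslit _ h4), add_sub_cancel_left, mul_div_cancel_right₀ _ hβ]
    exact cwa_polar h1 h2 h3.le
  have v1 := hval ρ θ g1 g3 (g4.trans_le (turn_le d e₁)) m2
  have v2 := hval ρ' θ' k1 (by linarith) (k4.trans_le (turn_le d e)) m4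
  have hmem := himg.out (Set.mem_image_of_mem _ m2) (Set.mem_image_of_mem _ m4)
  simp only [v1, v2] at hmem
  obtain ⟨z, hz, hzz⟩ := hmem ⟨g4.le, by linarith⟩
  simp only at hzz
  rw [← cwa_eq_arg (hslit z hz)] at hzz
  exact hne₁ z hz hzz

end P7b
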