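import Pool.Agent.Lib.P7d.Comp
import Pool.Agent.Lib.P7d.JumpL
import Pool.Agent.Lib.P7d.Sector

/-! MP_7b5a71, package D: at most one boundary component of a face in each connected component of the union.

Proof (as `P7b/Uniq.lean`).  Let `l = [d, nxt d, ..., nxt^{N-1} d]`, `N` the minimal period; it is a closed walk (`og (nxt a) = hd a = og (rvL a)`).  `c` from `planarL`.  Put `η a = c (lreg a) + ind (a in the orbit of d)` in `ZMod 2`.  `η (nxt a) = η a` (`lreg_nxtL`) and
`η (rvL a) = η a` (planarity; `count` in `l` is the indicator of the orbit).  So `η` is constant on `GC` classes: `η e = η d`; `c` agrees, so `e` is in the orbit of `d`. -/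

namespace P7b

variable {R : Finset Sg}

private theorem walk_auxO (h : LP R) (n : ℕ) : ∀ u : Drt R,
    IsWalk Drt.og (Drt.rvL h) u.og ((List.range n).map (fun i => (nxtL h)^[i] u))
      ((nxtL h)^[n] u).og := by
  induction n with
  | zero => intro u; exact IsWalk.nil _
  | succ n ih =>
    intro u
    rw [List.range_succ_eq_map, List.map_cons, List.map_map]
    have h1 := ih (nxtL h u)
    have h2 : (nxtL h u).og = (u.rvL h).og := (nxtL_spec h u).1
    rw [h2] at h1
    exact IsWalk.cons u _ _ h1

private theorem orb_nxtO (h : LP R) (u d : Drt R) :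
    (∃ i : ℕ, nxtL h d = (nxtL h)^[i] u) ↔ (∃ i : ℕ, d = (nxtL h)^[i] u) := by
  have hp : u ∈ Function.periodicPts (nxtL h) := (nxtL_inj h).mem_periodicPts u
  have hpos : 0 < Function.minimalPeriod (nxtL h) u :=
    Function.minimalPeriod_pos_of_mem_periodicPts hp
  have hiter : (nxtL h)^[Function.minimalPeriod (nxtL h) u] u = u :=
    Function.isPeriodicPt_minimalPeriod _ u
  constructor
  · rintro ⟨i, hi⟩
    refine ⟨i + Function.minimalPeriod (nxtL h) u - 1, ?_⟩
    apply nxtL_inj h
    rw [← Function.iterate_succ_apply' (nxtL h)]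
    have : (i + Function.minimalPeriod (nxtL h) u - 1).succ =
        i + Function.minimalPeriod (nxtL h) u := by omega
    rw [this, Function.iterate_add_apply, hiter]
    exact hi
  · rintro ⟨i, hi⟩
    refine ⟨i + 1, ?_⟩
    rw [Function.iterate_succ_apply', hi]

private theorem zmod2_auxO : ∀ a b p q : ZMod 2, a + b = p + q → b + q = a + p := by
  decide

open Classical in
private theorem countO (h : LP R) (u d : Drt R) :
    ((((List.range (Function.minimalPeriod (nxtL h) u)).map (fun i => (nxtL h)^[i] u)).count d : ℕ)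
      : ZMod 2) = ind (∃ i : ℕ, d = (nxtL h)^[i] u) := by
  have hnd : ((List.range (Function.minimalPeriod (nxtL h) u)).map
      (fun i => (nxtL h)^[i] u)).Nodup := by
    apply List.Nodup.map_on _ List.nodup_range
    intro a ha b hb hab
    rw [List.mem_range] at ha hb
    exact Function.iterate_injOn_Iio_minimalPeriod ha hb hab
  rw [hnd.count]
  have hp : u ∈ Function.periodicPts (nxtL h) := (nxtL_inj h).mem_periodicPts u
  have hpos : 0 < Function.minimalPeriod (nxtL h) u :=
    Function.minimalPeriod_pos_of_mem_periodicPts hp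
  have hiff : d ∈ (List.range (Function.minimalPeriod (nxtL h) u)).map
      (fun i => (nxtL h)^[i] u) ↔ ∃ i : ℕ, d = (nxtL h)^[i] u := by
    rw [List.mem_map]
    constructor
    · rintro ⟨i, _, rfl⟩
      exact ⟨i, rfl⟩
    · rintro ⟨i, rfl⟩
      exact ⟨i % Function.minimalPeriod (nxtL h) u, List.mem_range.mpr (Nat.mod_lt _ hpos),
        Function.iterate_mod_minimalPeriod_eq⟩
  by_cases hd : ∃ i : ℕ, d = (nxtL h)^[i] u
  · rw [if_pos (hiff.mpr hd), ind_true hd]
    simp
  · rw [if_neg (fun hh => hd (hiff.mp hh)), ind_false hd]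
    simp

theorem one_orbit (h : LP R) {d e : Drt R} (hl : lreg R d.og d.hd = lreg R e.og e.hd)
    (hc : GC h d e) : ∃ i : ℕ, e = (nxtL h)^[i] d := by
  classical
  have hwalk := walk_auxO h (Function.minimalPeriod (nxtL h) d) d
  have hiter : (nxtL h)^[Function.minimalPeriod (nxtL h) d] d = d :=
    Function.isPeriodicPt_minimalPeriod _ d
  rw [hiter] at hwalk
  obtain ⟨c, hcol⟩ := planarL h d.og _ hwalk
  have hrev : ∀ a : Drt R, c (lreg R (a.rvL h).og (a.rvL h).hd) +
      ind (∃ i : ℕ, a.rvL h = (nxtL h)^[i] d) =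
      c (lreg R a.og a.hd) + ind (∃ i : ℕ, a = (nxtL h)^[i] d) := by
    intro a
    apply zmod2_auxO
    rw [Drt.og_rvL, Drt.hd_rvL, hcol a, countO, countO]
  have hnxt : ∀ a : Drt R, c (lreg R (nxtL h a).og (nxtL h a).hd) +
      ind (∃ i : ℕ, nxtL h a = (nxtL h)^[i] d) =
      c (lreg R a.og a.hd) + ind (∃ i : ℕ, a = (nxtL h)^[i] d) := by
    intro a
    rw [lreg_nxtL, ind_congr (orb_nxtO h d a)]
  have hall : ∀ a : Drt R, GC h d a → c (lreg R a.og a.hd) +
      ind (∃ i : ℕ, a = (nxtL h)^[i] d) =
      c (lreg R d.og d.hd) + ind (∃ i : ℕ, d = (nxtL h)^[i] d) := by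
    intro a ha
    induction ha with
    | refl => rfl
    | tail _ hbc ih =>
      rename_i b e' _
      rcases hbc with hbc | hbc
      · rw [hbc, hrev b, ih]
      · rw [hbc, hnxt b, ih]
  have key := hall e hc
  rw [hl] at key
  have key2 := add_left_cancel key
  rw [ind_true (⟨0, rfl⟩ : ∃ i : ℕ, d = (nxtL h)^[i] d)] at key2
  by_contra hcon
  rw [ind_false hcon] at key2
  exact absurd key2 (by decide)

end P7b
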