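import Pool.Agent.Lib.P7b.LPFin
import Pool.Agent.Lib.P7b.GMap

/-! MP_7b5a71, package D: vertices on a segment for a family any two segments of which share at most one point (`LP`).

Copies of `GP.mem_VF`, `GP.en_mem_VF`, `GP.sc_spec`, `GP.sc_ne`, `GP.sc_sc`, `GP.sc_disj` of `Pool/Agent/Lib/P7b/GVert.lean` (proved there for `GP`; the proofs only use the finiteness of
`Vx R`, here `LP.vx_finite`, and `h.ne`). -/

namespace P7b

open Complex

theorem LP.mem_VF {R : Finset Sg} (h : LP R) {s : Sg} {z : ℂ} : z ∈ VF R s ↔ z ∈ Vx R ∧ z ∈ car s := by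
  have hf : (Vx R ∩ car s).Finite := h.vx_finite.subset Set.inter_subset_left
  unfold VF
  rw [dif_pos hf, Set.Finite.mem_toFinset]
  exact Iff.rfl

theorem LP.en_mem_VF {R : Finset Sg} (h : LP R) {s : Sg} (hs : s ∈ R) (b : Bool) : en s b ∈ VF R s := by
  rw [h.mem_VF]
  refine ⟨Or.inl ⟨s, hs, ?_⟩, en_mem s b⟩
  cases b
  · left; simp [en]
  · right; simp [en]

theorem LP.sc_spec {R : Finset Sg} (h : LP R) {s : Sg} (hs : s ∈ R) (b : Bool) {q : ℂ}
    (hq : q ∈ VF R s) (hne : q ≠ en s b) :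
    sc R s b q ∈ VF R s ∧ tau s b q < tau s b (sc R s b q) ∧
      ∀ v ∈ VF R s, tau s b q < tau s b v → tau s b (sc R s b q) ≤ tau s b v := by
  have hne' : ((VF R s).filter (fun v => tau s b q < tau s b v)).Nonempty :=
    ⟨en s b, Finset.mem_filter.2 ⟨h.en_mem_VF hs b,
      tau_lt_en (h.ne s hs) b (h.mem_VF.1 hq).2 hne⟩⟩
  have hsc : sc R s b q = Classical.choose (Finset.exists_min_image _ (tau s b) hne') := by
    unfold sc
    rw [dif_pos hne']
  have hspec := Classical.choose_spec (Finset.exists_min_image _ (tau s b) hne')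
  rw [← hsc] at hspec
  obtain ⟨h1, h2⟩ := hspec
  rw [Finset.mem_filter] at h1
  exact ⟨h1.1, h1.2, fun v hv hlt => h2 v (Finset.mem_filter.2 ⟨hv, hlt⟩)⟩

theorem LP.sc_ne {R : Finset Sg} (h : LP R) {s : Sg} (hs : s ∈ R) (b : Bool) {q : ℂ}
    (hq : q ∈ VF R s) (hne : q ≠ en s b) : sc R s b q ≠ en s (!b) := by
  obtain ⟨h1, h2, h3⟩ := h.sc_spec hs b hq hne
  intro hh
  have h4 := tau_le_en (h.ne s hs) (!b) (h.mem_VF.1 hq).2
  rw [tau_not, tau_not] at h4
  rw [hh] at h2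
  linarith

theorem LP.sc_sc {R : Finset Sg} (h : LP R) {s : Sg} (hs : s ∈ R) (b : Bool) {q : ℂ}
    (hq : q ∈ VF R s) (hne : q ≠ en s b) : sc R s (!b) (sc R s b q) = q := by
  obtain ⟨h1, h2, h3⟩ := h.sc_spec hs b hq hne
  obtain ⟨h4, h5, h6⟩ := h.sc_spec hs (!b) h1 (h.sc_ne hs b hq hne)
  have h7 := h6 q hq (by rw [tau_not, tau_not]; linarith)
  rw [tau_not, tau_not] at h5 h7
  refine tau_inj (h.ne s hs) b (h.mem_VF.1 h4).2 (h.mem_VF.1 hq).2 ?_
  by_contra hne2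
  have h8 : tau s b q < tau s b (sc R s (!b) (sc R s b q)) := by
    rcases lt_trichotomy (tau s b q) (tau s b (sc R s (!b) (sc R s b q))) with hlt | heq | hgt
    · exact hlt
    · exact absurd heq.symm hne2
    · linarith
  have h9 := h3 _ h4 h8
  linarith

theorem LP.sc_disj {R : Finset Sg} (h : LP R) {s : Sg} (hs : s ∈ R) (b : Bool) {q : ℂ}
    (hq : q ∈ VF R s) (hne : q ≠ en s b) :
    Disjoint (openSegment ℝ q (sc R s b q)) (Vx R) := by
  obtain ⟨h1, h2, h3⟩ := h.sc_spec hs b hq hne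
  rw [Set.disjoint_left]
  intro z hz hzV
  have hqc := (h.mem_VF.1 hq).2
  have hqc' := (h.mem_VF.1 h1).2
  have hzc := openSegment_sub hqc hqc' hz
  have h4 := (mem_openSegment_iff (h.ne s hs) b hqc hqc' hzc h2).1 hz
  have h5 := h3 z (h.mem_VF.2 ⟨hzV, hzc⟩) h4.1
  linarith [h4.2]

end P7b
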